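import Mathlib

/-!
# Realizability of 0-1 matrices by curves: basic definitions
-/

namespace Pool.Agent.Lib.MP_3c53dc_co

open Set

/-- `A` is realized by distinct points `p j` and simple arcs `c i` of the space `X`, any two of
which have at most one common point. -/
def RealizableIn (X : Type*) [TopologicalSpace X] {I J : Type*} (A : I → J → Prop) : Prop :=
  ∃ (p : J → X) (c : I → unitInterval → X),
    Function.Injective p ∧
    (∀ i, Continuous (c i) ∧ Function.Injective (c i)) ∧
    (∀ i j, p j ∈ range (c i) ↔ A i j) ∧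
    (∀ i i', i ≠ i' → (range (c i) ∩ range (c i')).Subsingleton)

/-- A weak notion of plane drawing of a graph: every edge is drawn inside a set `S u v` in which
its ends can be joined by a path, edges avoid the other vertices, and edges without a
common end are drawn in disjoint sets. -/
def Drawable {V : Type*} (G : SimpleGraph V) : Prop :=
  ∃ (pos : V → ℂ) (S : V → V → Set ℂ),
    (∀ u v, G.Adj u v → JoinedIn (S u v) (pos u) (pos v)) ∧
    (∀ u v w, G.Adj u v → w ≠ u → w ≠ v → pos w ∉ S u v) ∧
    (∀ u v u' v', G.Adj u v → G.Adj u' v' → u ≠ u' → u ≠ v' → v ≠ u' → v ≠ v' →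
      Disjoint (S u v) (S u' v'))

/-- `H` is a minor of `G` (model with branch sets `B w`). -/
def IsMinor {W V : Type*} (H : SimpleGraph W) (G : SimpleGraph V) : Prop :=
  ∃ B : W → Set V,
    (∀ w, (B w).Nonempty) ∧
    (∀ w, ∀ x ∈ B w, ∀ y ∈ B w,
      Relation.ReflTransGen (fun a b => a ∈ B w ∧ b ∈ B w ∧ G.Adj a b) x y) ∧
    (∀ w w', w ≠ w' → Disjoint (B w) (B w')) ∧
    (∀ w w', H.Adj w w' → ∃ u ∈ B w, ∃ v ∈ B w', G.Adj u v)

/-- The cone over a graph: one new vertex adjacent to all old vertices. -/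
def cone {V : Type*} (G : SimpleGraph V) : SimpleGraph (Option V) where
  Adj x y := (x = none ∧ y ≠ none) ∨ (y = none ∧ x ≠ none) ∨
    ∃ u v, x = some u ∧ y = some v ∧ G.Adj u v
  symm := ⟨by
    rintro x y (h | h | ⟨u, v, hx, hy, h⟩)
    · exact Or.inr (Or.inl h)
    · exact Or.inl h
    · exact Or.inr (Or.inr ⟨v, u, hy, hx, h.symm⟩)⟩
  loopless := ⟨by
    rintro x (h | h | ⟨u, v, hx, hy, h⟩)
    · exact h.2 h.1
    · exact h.2 h.1
    · rw [hx] at hy
      obtain rfl := Option.some.inj hy
      exact h.ne rfl⟩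

end Pool.Agent.Lib.MP_3c53dc_co
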