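import Mathlib
import Pool.Agent.Lib.MP_3c53dc_co.Defs

section

/-!
# The matrices `Inc σ` are realizable by curves
-/

namespace Pool.Agent.Lib.MP_3c53dc_co

open Set

/-- Rows: `T³` polylines and three vertical segments. -/
abbrev Row (T : ℕ) := (Fin T × Fin T × Fin T) ⊕ Fin 3

/-- Columns: `T²` points on each of three vertical lines. -/
abbrev Col (T : ℕ) := Fin 3 × Fin T × Fin T

/-- The incidences. -/
def Inc {T : ℕ} (σ : Fin T → Fin T → Equiv.Perm (Fin T)) : Row T → Col T → Prop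
  | Sum.inl u, v => (v.1 = 0 ∧ v.2.1 = u.1 ∧ v.2.2 = u.2.2) ∨
      (v.1 = 1 ∧ v.2.1 = u.1 ∧ v.2.2 = u.2.1) ∨
      (v.1 = 2 ∧ v.2.1 = u.2.1 ∧ v.2.2 = σ u.1 u.2.1 u.2.2)
  | Sum.inr r, v => v.1 = r

/-- A polyline with nodes at `0,1,2`. -/
noncomputable def poly (a b c x : ℝ) : ℝ := a + min x 1 * (b - a) + max (x - 1) 0 * (c - b)

theorem poly_zero (a b c : ℝ) : poly a b c 0 = a := by simp [poly]

theorem poly_one (a b c : ℝ) : poly a b c 1 = b := by simp [poly]

theorem poly_two (a b c : ℝ) : poly a b c 2 = c := by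
  have h1 : min (2:ℝ) 1 = 1 := by norm_num
  have h2 : max ((2:ℝ) - 1) 0 = 1 := by norm_num
  rw [poly, h1, h2]; ring

theorem poly_le {a b c x : ℝ} (hx : x ≤ 1) : poly a b c x = a + x * (b - a) := by
  rw [poly, min_eq_left hx, max_eq_right (by linarith)]; ring

theorem poly_ge {a b c x : ℝ} (hx : 1 ≤ x) : poly a b c x = b + (x - 1) * (c - b) := by
  rw [poly, min_eq_right hx, max_eq_left (by linarith)]; ring

theorem poly_sub (a b c a' b' c' x : ℝ) :
    poly a b c x - poly a' b' c' x = poly (a - a') (b - b') (c - c') x := by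
  simp only [poly]; ring

theorem continuous_poly (a b c : ℝ) : Continuous (poly a b c) := by
  unfold poly
  fun_prop

theorem zero1 {a b c : ℝ} (hb : b = 0) (ha : a ≠ 0) (hc : c ≠ 0) {x : ℝ}
    (h : poly a b c x = 0) : x = 1 := by
  subst hb
  rcases le_total x 1 with hx | hx
  · rw [poly_le hx] at h
    have : a * (1 - x) = 0 := by linarith
    rcases mul_eq_zero.mp this with h | h
    · exact absurd h ha
    · linarith
  · rw [poly_ge hx] at h
    have : (x - 1) * c = 0 := by linarith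
    rcases mul_eq_zero.mp this with h | h
    · linarith
    · exact absurd h hc

/-- At most one zero if the last two nodes are negative. -/
theorem zero2 {a b c : ℝ} (hb : b < 0) (hc : c < 0) {x y : ℝ}
    (hx2 : x ≤ 2) (hy2 : y ≤ 2)
    (h : poly a b c x = 0) (h' : poly a b c y = 0) : x = y := by
  have key : ∀ x : ℝ, x ≤ 2 → poly a b c x = 0 → x ≤ 1 := by
    intro x hx2 h
    by_contra hx
    push Not at hx
    rw [poly_ge hx.le] at h
    have h1 : b * (2 - x) ≤ 0 := mul_nonpos_of_nonpos_of_nonneg hb.le (by linarith)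
    have h2 : (x - 1) * c < 0 := mul_neg_of_pos_of_neg (by linarith) hc
    linarith
  have h1 := key x hx2 h
  have h2 := key y hy2 h'
  rw [poly_le h1] at h
  rw [poly_le h2] at h'
  have h3 : (x - y) * (b - a) = 0 := by linarith
  rcases mul_eq_zero.mp h3 with h4 | h4
  · linarith
  · exfalso
    rw [h4] at h
    linarith

/-- At most one zero if the first two nodes are negative. -/
theorem zero3 {a b c : ℝ} (ha : a < 0) (hb : b < 0) {x y : ℝ}
    (hx2 : 0 ≤ x) (hy2 : 0 ≤ y)
    (h : poly a b c x = 0) (h' : poly a b c y = 0) : x = y := by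
  have key : ∀ x : ℝ, 0 ≤ x → poly a b c x = 0 → 1 ≤ x := by
    intro x hx2 h
    by_contra hx
    push Not at hx
    rw [poly_le hx.le] at h
    have h1 : a * (1 - x) < 0 := mul_neg_of_neg_of_pos ha (by linarith)
    have h2 : x * b ≤ 0 := mul_nonpos_of_nonneg_of_nonpos hx2 hb.le
    linarith
  have h1 := key x hx2 h
  have h2 := key y hy2 h'
  rw [poly_ge h1] at h
  rw [poly_ge h2] at h'
  have h3 : (x - y) * (c - b) = 0 := by linarith
  rcases mul_eq_zero.mp h3 with h4 | h4
  · linarith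
  · exfalso
    rw [h4] at h
    linarith

/-- Height of the point `(x, y)` on a vertical line. -/
def ht {T : ℕ} (x y : Fin T) : ℝ := (x : ℝ) * T + y

theorem ht_lt {T : ℕ} {x x' y y' : Fin T} (h : x < x') : ht x y < ht x' y' := by
  unfold ht
  have h1 : (x : ℝ) + 1 ≤ x' := by exact_mod_cast h
  have h2 : (y : ℝ) < T := by exact_mod_cast y.isLt
  have h3 : (0 : ℝ) ≤ (y' : ℝ) := by positivity
  have h4 : (0 : ℝ) ≤ (T : ℝ) := by positivity
  have h5 : ((x : ℝ) + 1) * T ≤ x' * T := mul_le_mul_of_nonneg_right h1 h4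
  linarith

theorem ht_inj {T : ℕ} {x x' y y' : Fin T} (h : ht x y = ht x' y') : x = x' ∧ y = y' := by
  have hx : x = x' := by
    rcases lt_trichotomy x x' with h1 | h1 | h1
    · exact absurd h (ht_lt h1).ne
    · exact h1
    · exact absurd h.symm (ht_lt h1).ne
  subst hx
  refine ⟨rfl, ?_⟩
  unfold ht at h
  have : (y : ℝ) = y' := by linarith
  exact Fin.ext (by exact_mod_cast this)

theorem ht_nonneg {T : ℕ} (x y : Fin T) : 0 ≤ ht x y := by unfold ht; positivity

theorem ht_le {T : ℕ} (x y : Fin T) : ht x y ≤ (T : ℝ) * T := by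
  unfold ht
  have h1 : (x : ℝ) + 1 ≤ T := by exact_mod_cast x.isLt
  have h2 : (y : ℝ) < T := by exact_mod_cast y.isLt
  have h4 : (0 : ℝ) ≤ (T : ℝ) := by positivity
  have h5 : ((x : ℝ) + 1) * T ≤ T * T := mul_le_mul_of_nonneg_right h1 h4
  linarith

/-- The function whose graph is the polyline of row `u`. -/
noncomputable def fu {T : ℕ} (σ : Fin T → Fin T → Equiv.Perm (Fin T)) (u : Fin T × Fin T × Fin T) :
    ℝ → ℝ :=
  poly (ht u.1 u.2.2) (ht u.1 u.2.1) (ht u.2.1 (σ u.1 u.2.1 u.2.2))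

/-- The curves. -/
noncomputable def crv {T : ℕ} (σ : Fin T → Fin T → Equiv.Perm (Fin T)) :
    Row T → unitInterval → ℝ × ℝ
  | Sum.inl u, t => (2 * (t : ℝ), fu σ u (2 * (t : ℝ)))
  | Sum.inr r, t => (((r : ℕ) : ℝ), (t : ℝ) * ((T : ℝ) * T + 1))

/-- The points. -/
noncomputable def pnt {T : ℕ} (v : Col T) : ℝ × ℝ := (((v.1 : ℕ) : ℝ), ht v.2.1 v.2.2)

theorem mem_crv_inl {T : ℕ} (σ : Fin T → Fin T → Equiv.Perm (Fin T)) (u : Fin T × Fin T × Fin T)
    (z : ℝ × ℝ) :
    z ∈ range (crv σ (Sum.inl u)) ↔ 0 ≤ z.1 ∧ z.1 ≤ 2 ∧ fu σ u z.1 = z.2 := by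
  constructor
  · rintro ⟨t, rfl⟩
    exact ⟨by simp only [crv]; linarith [t.2.1], by simp only [crv]; linarith [t.2.2], rfl⟩
  · rintro ⟨h1, h2, h3⟩
    refine ⟨⟨z.1 / 2, by constructor <;> linarith⟩, ?_⟩
    simp only [crv]
    have : 2 * (z.1 / 2) = z.1 := by ring
    rw [this, h3]

theorem mem_crv_inr {T : ℕ} (σ : Fin T → Fin T → Equiv.Perm (Fin T)) (r : Fin 3)
    (z : ℝ × ℝ) :
    z ∈ range (crv σ (Sum.inr r)) ↔ z.1 = ((r : ℕ) : ℝ) ∧ 0 ≤ z.2 ∧ z.2 ≤ (T : ℝ) * T + 1 := by
  have hpos : (0 : ℝ) < (T : ℝ) * T + 1 := by positivity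
  constructor
  · rintro ⟨t, rfl⟩
    refine ⟨rfl, mul_nonneg t.2.1 hpos.le, ?_⟩
    have := mul_le_mul_of_nonneg_right t.2.2 hpos.le
    simp only [crv]
    linarith
  · rintro ⟨h1, h2, h3⟩
    refine ⟨⟨z.2 / ((T : ℝ) * T + 1), by positivity, ?_⟩, ?_⟩
    · rw [div_le_one hpos]; exact h3
    · simp only [crv]
      rw [div_mul_cancel₀ _ hpos.ne', ← h1]

theorem fu_sub_inj {T : ℕ} (σ : Fin T → Fin T → Equiv.Perm (Fin T))
    {u u' : Fin T × Fin T × Fin T} (hu : u ≠ u') {x y : ℝ} (hx : 0 ≤ x) (hx2 : x ≤ 2)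
    (hy : 0 ≤ y) (hy2 : y ≤ 2) (h1 : fu σ u x = fu σ u' x) (h2 : fu σ u y = fu σ u' y) :
    x = y := by
  -- the case of different first coordinates or different second coordinates, ordered
  have main : ∀ u u' : Fin T × Fin T × Fin T,
      (u.1 < u'.1 ∨ (u.1 = u'.1 ∧ u.2.1 < u'.2.1) ∨
        (u.1 = u'.1 ∧ u.2.1 = u'.2.1 ∧ u.2.2 ≠ u'.2.2)) →
      fu σ u x = fu σ u' x → fu σ u y = fu σ u' y → x = y := by
    rintro ⟨p, q, i⟩ ⟨p', q', i'⟩ hcase h1 h2
    have e1 := sub_eq_zero.mpr h1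
    have e2 := sub_eq_zero.mpr h2
    simp only [fu] at e1 e2
    rw [poly_sub] at e1 e2
    simp only at hcase
    rcases hcase with h | ⟨h, h'⟩ | ⟨h, h', h''⟩
    · exact zero3 (sub_neg.mpr (ht_lt h)) (sub_neg.mpr (ht_lt h)) hx hy e1 e2
    · subst h
      refine zero2 ?_ (sub_neg.mpr (ht_lt h')) hx2 hy2 e1 e2
      unfold ht
      have : (q : ℝ) < q' := by exact_mod_cast h'
      linarith
    · subst h h'
      have hne1 : ht p i - ht p i' ≠ 0 := fun e => h'' (ht_inj (sub_eq_zero.mp e)).2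
      have hne2 : ht q (σ p q i) - ht q (σ p q i') ≠ 0 := fun e =>
        h'' ((σ p q).injective (ht_inj (sub_eq_zero.mp e)).2)
      rw [zero1 (sub_self _) hne1 hne2 e1, zero1 (sub_self _) hne1 hne2 e2]
  rcases lt_trichotomy u.1 u'.1 with h | h | h
  · exact main u u' (Or.inl h) h1 h2
  · rcases lt_trichotomy u.2.1 u'.2.1 with h' | h' | h'
    · exact main u u' (Or.inr (Or.inl ⟨h, h'⟩)) h1 h2
    · refine main u u' (Or.inr (Or.inr ⟨h, h', fun h'' => hu ?_⟩)) h1 h2
      exact Prod.ext h (Prod.ext h' h'')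
    · exact main u' u (Or.inr (Or.inl ⟨h.symm, h'⟩)) h1.symm h2.symm
  · exact main u' u (Or.inl h) h1.symm h2.symm

theorem primal {T : ℕ} (σ : Fin T → Fin T → Equiv.Perm (Fin T)) :
    RealizableIn (ℝ × ℝ) (Inc σ) := by
  refine ⟨pnt, crv σ, ?_, ?_, ?_, ?_⟩
  · rintro ⟨s, x, y⟩ ⟨s', x', y'⟩ h
    simp only [pnt, Prod.mk.injEq] at h
    obtain ⟨h1, h2⟩ := h
    obtain ⟨rfl, rfl⟩ := ht_inj h2
    have h3 : s = s' := Fin.ext (by exact_mod_cast h1)
    rw [h3]
  · rintro (u | r)
    · constructor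
      · have := continuous_poly (ht u.1 u.2.2) (ht u.1 u.2.1) (ht u.2.1 (σ u.1 u.2.1 u.2.2))
        change Continuous (fun t : unitInterval => ((2 * (t : ℝ), fu σ u (2 * (t : ℝ))) : ℝ × ℝ))
        refine Continuous.prodMk (by fun_prop) (this.comp (by fun_prop))
      · intro t t' h
        simp only [crv, Prod.mk.injEq] at h
        exact Subtype.ext (by linarith [h.1])
    · constructor
      · change Continuous (fun t : unitInterval =>
          ((((r : ℕ) : ℝ), (t : ℝ) * ((T : ℝ) * T + 1)) : ℝ × ℝ))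
        fun_prop
      · intro t t' h
        simp only [crv, Prod.mk.injEq] at h
        have hpos : (0 : ℝ) < (T : ℝ) * T + 1 := by positivity
        exact Subtype.ext (mul_right_cancel₀ hpos.ne' h.2)
  · rintro (u | r) ⟨s, x, y⟩
    · rw [mem_crv_inl]
      obtain ⟨p, q, i⟩ := u
      simp only [Inc, pnt, fu]
      fin_cases s
      · simp only [Fin.zero_eta, Nat.cast_zero, poly_zero]
        constructor
        · rintro ⟨-, -, h⟩
          obtain ⟨rfl, rfl⟩ := ht_inj h
          exact Or.inl ⟨trivial, rfl, rfl⟩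
        · rintro (⟨-, rfl, rfl⟩ | ⟨h, -⟩ | ⟨h, -⟩)
          · exact ⟨le_refl _, by norm_num, rfl⟩
          · exact absurd h (by decide)
          · exact absurd h (by decide)
      · simp only [Fin.mk_one, Nat.cast_one, poly_one]
        constructor
        · rintro ⟨-, -, h⟩
          obtain ⟨rfl, rfl⟩ := ht_inj h
          exact Or.inr (Or.inl ⟨trivial, rfl, rfl⟩)
        · rintro (⟨h, -⟩ | ⟨-, rfl, rfl⟩ | ⟨h, -⟩)
          · exact absurd h (by decide)
          · exact ⟨by norm_num, by norm_num, rfl⟩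
          · exact absurd h (by decide)
      · simp only [Fin.reduceFinMk, Nat.cast_ofNat, poly_two]
        constructor
        · rintro ⟨-, -, h⟩
          obtain ⟨h1, h2⟩ := ht_inj h
          exact Or.inr (Or.inr ⟨trivial, h1.symm, h2.symm⟩)
        · rintro (⟨h, -⟩ | ⟨h, -⟩ | ⟨-, rfl, rfl⟩)
          · exact absurd h (by decide)
          · exact absurd h (by decide)
          · exact ⟨by norm_num, le_refl _, rfl⟩
    · rw [mem_crv_inr]
      simp only [Inc, pnt]
      constructor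
      · rintro ⟨h, -, -⟩
        exact Fin.ext (by exact_mod_cast h)
      · rintro rfl
        exact ⟨rfl, ht_nonneg _ _, (ht_le _ _).trans (by linarith)⟩
  · rintro (u | r) (u' | r') hne z hz z' hz'
    · have hu : u ≠ u' := fun e => hne (congrArg _ e)
      obtain ⟨h1, h2⟩ := hz
      obtain ⟨h1', h2'⟩ := hz'
      rw [mem_crv_inl] at h1 h2 h1' h2'
      have hxy := fu_sub_inj σ hu h1.1 h1.2.1 h1'.1 h1'.2.1 (h1.2.2.trans h2.2.2.symm)
        (h1'.2.2.trans h2'.2.2.symm)
      refine Prod.ext hxy ?_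
      rw [← h1.2.2, ← h1'.2.2, hxy]
    · obtain ⟨h1, h2⟩ := hz
      obtain ⟨h1', h2'⟩ := hz'
      rw [mem_crv_inl] at h1 h1'
      rw [mem_crv_inr] at h2 h2'
      have hxy : z.1 = z'.1 := h2.1.trans h2'.1.symm
      refine Prod.ext hxy ?_
      rw [← h1.2.2, ← h1'.2.2, hxy]
    · obtain ⟨h2, h1⟩ := hz
      obtain ⟨h2', h1'⟩ := hz'
      rw [mem_crv_inl] at h1 h1'
      rw [mem_crv_inr] at h2 h2'
      have hxy : z.1 = z'.1 := h2.1.trans h2'.1.symm
      refine Prod.ext hxy ?_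
      rw [← h1.2.2, ← h1'.2.2, hxy]
    · obtain ⟨h1, h2⟩ := hz
      rw [mem_crv_inr] at h1 h2
      exfalso
      apply hne
      have := h1.1.symm.trans h2.1
      exact congrArg _ (Fin.ext (by exact_mod_cast this))

end Pool.Agent.Lib.MP_3c53dc_co
end

section

/-!
# Change of logarithm along paths, and the square relation
-/

namespace Pool.Agent.Lib.MP_3c53dc_co

open Set Complex

/-- A continuous logarithm of a nonvanishing function on a simply connected space. -/
theorem exists_log {A : Type*} [TopologicalSpace A] [SimplyConnectedSpace A]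
    [LocallyPathConnectedSpace A] (f : A → ℂ) (hf : Continuous f) (h0 : ∀ x, f x ≠ 0) :
    ∃ L : A → ℂ, Continuous L ∧ ∀ x, exp (L x) = f x := by
  obtain ⟨a₀⟩ : Nonempty A := inferInstance
  obtain ⟨L, ⟨-, hL⟩, -⟩ := isCoveringMapOn_exp.existsUnique_continuousMap_lifts
    (⟨f, hf⟩ : C(A, ℂ)) (a₀ := a₀) (exp_log (h0 a₀)) (fun a => h0 a)
  exact ⟨L, L.continuous, fun x => congrFun hL x⟩

/-- Two continuous logarithms of the same function with the same value somewhere agree. -/
theorem log_unique {A : Type*} [TopologicalSpace A] [SimplyConnectedSpace A]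
    [LocallyPathConnectedSpace A] (L L' : A → ℂ) (hL : Continuous L) (hL' : Continuous L')
    (h : ∀ x, exp (L x) = exp (L' x)) (a₀ : A) (h0 : L a₀ = L' a₀) (x : A) : L x = L' x := by
  obtain ⟨F, -, hF⟩ := isCoveringMapOn_exp.existsUnique_continuousMap_lifts
    (⟨fun x => exp (L' x), by fun_prop⟩ : C(A, ℂ)) (a₀ := a₀) (e₀ := L' a₀) rfl
    (fun a => exp_ne_zero _)
  have h1 := hF ⟨L, hL⟩ ⟨h0, funext h⟩
  have h2 := hF ⟨L', hL'⟩ ⟨rfl, rfl⟩
  have h3 := h1.trans h2.symm
  exact congrArg (fun G : C(A, ℂ) => G x) h3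

open Classical in
/-- Total change of the logarithm of `f` on `[0,1]`. -/
noncomputable def W (f : ℝ → ℂ) : ℂ :=
  if h : ∃ L : ℝ → ℂ, Continuous L ∧ ∀ x, exp (L x) = f x then h.choose 1 - h.choose 0 else 0

theorem W_eq {f : ℝ → ℂ} {L : ℝ → ℂ} (hL : Continuous L) (h : ∀ x, exp (L x) = f x) :
    W f = L 1 - L 0 := by
  have hex : ∃ L : ℝ → ℂ, Continuous L ∧ ∀ x, exp (L x) = f x := ⟨L, hL, h⟩
  rw [W, dif_pos hex]
  obtain ⟨hc, he⟩ := hex.choose_spec
  set L' := hex.choose with hL'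
  have key := log_unique (fun x => L' x - (L' 0 - L 0)) L (by fun_prop) hL (fun x => by
    have h1 : exp (L' 0 - L 0) = 1 := by
      rw [exp_sub, he 0, h 0, div_self]
      rw [← h 0]; exact exp_ne_zero _
    rw [exp_sub, h1, he x, h x, div_one]) 0 (by ring) 1
  linear_combination key

/-- The exponential of the change. -/
theorem exp_W {f : ℝ → ℂ} (hf : Continuous f) (h0 : ∀ x, f x ≠ 0) :
    exp (W f) = f 1 / f 0 := by
  obtain ⟨L, hL, h⟩ := exists_log f hf h0
  rw [W_eq hL h, exp_sub, h, h]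

theorem W_neg {f : ℝ → ℂ} (hf : Continuous f) (h0 : ∀ x, f x ≠ 0) :
    W (fun x => - f x) = W f := by
  obtain ⟨L, hL, h⟩ := exists_log f hf h0
  rw [W_eq hL h, W_eq (f := fun x => - f x) (L := fun x => L x + Real.pi * I)
    (by fun_prop) (fun x => by rw [exp_add, h, exp_pi_mul_I]; ring)]
  ring

/-- The square relation. -/
theorem square {γ δ : ℝ → ℂ} (hγ : Continuous γ) (hδ : Continuous δ)
    (h : ∀ s t, γ s ≠ δ t) :
    W (fun s => γ s - δ 0) + W (fun t => δ t - γ 1) - W (fun s => γ s - δ 1)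
      - W (fun t => δ t - γ 0) = 0 := by
  obtain ⟨L, hL, hexp⟩ := exists_log (A := ℝ × ℝ) (fun x => γ x.1 - δ x.2) (by fun_prop)
    (fun x => sub_ne_zero.mpr (h _ _))
  have e1 : W (fun s => γ s - δ 0) = L (1, 0) - L (0, 0) :=
    W_eq (L := fun s => L (s, 0)) (by fun_prop) (fun x => hexp (x, 0))
  have e2 : W (fun s => γ s - δ 1) = L (1, 1) - L (0, 1) :=
    W_eq (L := fun s => L (s, 1)) (by fun_prop) (fun x => hexp (x, 1))
  have e3 : W (fun t => δ t - γ 1) = L (1, 1) - L (1, 0) := by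
    rw [← W_neg (by fun_prop) (fun x => sub_ne_zero.mpr (h _ _).symm)]
    exact W_eq (L := fun t => L (1, t)) (by fun_prop) (fun x => by rw [hexp (1, x)]; ring)
  have e4 : W (fun t => δ t - γ 0) = L (0, 1) - L (0, 0) := by
    rw [← W_neg (by fun_prop) (fun x => sub_ne_zero.mpr (h _ _).symm)]
    exact W_eq (L := fun t => L (0, t)) (by fun_prop) (fun x => by rw [hexp (0, x)]; ring)
  rw [e1, e2, e3, e4]
  ring

end Pool.Agent.Lib.MP_3c53dc_co
end

section

/-!
# The complete graph on five vertices is not drawable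
-/

namespace Pool.Agent.Lib.MP_3c53dc_co

open Set Complex

/-- sign -/
def ee (x y : Fin 5) : ℤ := if x < y then -1 else 1

theorem integer_relations (pos : Fin 5 → ℂ) (γ : Fin 5 → Fin 5 → ℝ → ℂ)
    (hc : ∀ i j, i ≠ j → Continuous (γ i j))
    (h0 : ∀ i j, i ≠ j → γ i j 0 = pos i) (h1 : ∀ i j, i ≠ j → γ i j 1 = pos j)
    (hpos : ∀ i j k, i ≠ j → k ≠ i → k ≠ j → ∀ t, γ i j t ≠ pos k)
    (hdis : ∀ i j k l, i ≠ j → k ≠ l → i ≠ k → i ≠ l → j ≠ k → j ≠ l →
      ∀ s t, γ i j s ≠ γ k l t) :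
    ∃ n : Fin 5 → Fin 5 → Fin 5 → ℤ, ∀ i j k l : Fin 5, i ≠ j → k ≠ l → i ≠ k → i ≠ l →
      j ≠ k → j ≠ l →
      2 * (n k i j + n j k l - n l i j - n i k l) + ee k j + ee j l + ee l i + ee i k = 0 := by
  classical
  have hne : ∀ x y : Fin 5, x ≠ y → pos x ≠ pos y := by
    intro x y hxy
    obtain ⟨z, hz1, hz2⟩ : ∃ z : Fin 5, z ≠ x ∧ z ≠ y := by
      revert x y; decide
    have := hpos x z y hz1.symm hxy.symm hz2.symm 0
    rwa [h0 x z hz1.symm] at this
  let θ : Fin 5 → Fin 5 → ℂ := fun x y =>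
    if x < y then log (pos y - pos x) else log (pos x - pos y) + Real.pi * I
  have hθ : ∀ x y, x ≠ y → exp (θ x y) = pos y - pos x := by
    intro x y hxy
    simp only [θ]
    split_ifs with h
    · exact exp_log (sub_ne_zero.mpr (hne y x hxy.symm))
    · rw [exp_add, exp_log (sub_ne_zero.mpr (hne x y hxy)), exp_pi_mul_I]; ring
  have hθ2 : ∀ x y, x ≠ y → θ x y - θ y x = (ee x y : ℂ) * (Real.pi * I) := by
    intro x y hxy
    rcases lt_or_gt_of_ne hxy with h | h
    · simp only [θ, ee, if_pos h, if_neg (not_lt.mpr h.le)]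
      push_cast; ring
    · simp only [θ, ee, if_pos h, if_neg (not_lt.mpr h.le)]
      push_cast; ring
  let w : Fin 5 → Fin 5 → Fin 5 → ℂ := fun k i j => W (fun t => γ i j t - pos k)
  have hw : ∀ k i j, i ≠ j → k ≠ i → k ≠ j →
      exp (w k i j) = exp (θ k j - θ k i) := by
    intro k i j hij hki hkj
    simp only [w]
    rw [exp_W (by have := hc i j hij; fun_prop)
      (fun t => sub_ne_zero.mpr (hpos i j k hij hki hkj t)), exp_sub, hθ k j hkj, hθ k i hki,
      h0 i j hij, h1 i j hij]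
  have hn : ∀ k i j, ∃ n : ℤ, i ≠ j → k ≠ i → k ≠ j →
      w k i j = (θ k j - θ k i) + n * (2 * Real.pi * I) := by
    intro k i j
    by_cases h : i ≠ j ∧ k ≠ i ∧ k ≠ j
    · obtain ⟨n, hn⟩ := exp_eq_exp_iff_exists_int.mp (hw k i j h.1 h.2.1 h.2.2)
      exact ⟨n, fun _ _ _ => hn⟩
    · exact ⟨0, fun a b c => absurd ⟨a, b, c⟩ h⟩
  choose n hn using hn
  refine ⟨n, fun i j k l hij hkl hik hil hjk hjl => ?_⟩
  have hsq := square (hc i j hij) (hc k l hkl) (hdis i j k l hij hkl hik hil hjk hjl)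
  rw [h0 i j hij, h1 i j hij, h0 k l hkl, h1 k l hkl] at hsq
  have e1 := hn k i j hij hik.symm hjk.symm
  have e2 := hn j k l hkl hjk hjl
  have e3 := hn l i j hij hil.symm hjl.symm
  have e4 := hn i k l hkl hik hil
  change w k i j + w j k l - w l i j - w i k l = 0 at hsq
  rw [e1, e2, e3, e4] at hsq
  have a1 := hθ2 k j hjk.symm
  have a2 := hθ2 j l hjl
  have a3 := hθ2 l i hil.symm
  have a4 := hθ2 i k hik
  have hpi : (Real.pi * I : ℂ) ≠ 0 := by
    simp [Real.pi_ne_zero]
  have key : ((2 * (n k i j + n j k l - n l i j - n i k l) + ee k j + ee j l + ee l i + ee i k :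
      ℤ) : ℂ) * (Real.pi * I) = 0 := by
    push_cast
    linear_combination hsq - a1 - a2 - a3 - a4
  have := (mul_eq_zero.mp key).resolve_right hpi
  exact_mod_cast this

theorem no_integer_solution (n : Fin 5 → Fin 5 → Fin 5 → ℤ)
    (h : ∀ i j k l : Fin 5, i ≠ j → k ≠ l → i ≠ k → i ≠ l → j ≠ k → j ≠ l →
      2 * (n k i j + n j k l - n l i j - n i k l) + ee k j + ee j l + ee l i + ee i k = 0) :
    False := by
  have a1 := h 0 1 2 3 (by decide) (by decide) (by decide) (by decide) (by decide) (by decide)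
  have a2 := h 0 1 2 4 (by decide) (by decide) (by decide) (by decide) (by decide) (by decide)
  have a3 := h 0 1 3 4 (by decide) (by decide) (by decide) (by decide) (by decide) (by decide)
  have a4 := h 0 2 1 3 (by decide) (by decide) (by decide) (by decide) (by decide) (by decide)
  have a5 := h 0 2 1 4 (by decide) (by decide) (by decide) (by decide) (by decide) (by decide)
  have a6 := h 0 2 3 4 (by decide) (by decide) (by decide) (by decide) (by decide) (by decide)
  have a7 := h 0 3 1 2 (by decide) (by decide) (by decide) (by decide) (by decide) (by decide)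
  have a8 := h 0 3 1 4 (by decide) (by decide) (by decide) (by decide) (by decide) (by decide)
  have a9 := h 0 3 2 4 (by decide) (by decide) (by decide) (by decide) (by decide) (by decide)
  have a10 := h 0 4 1 2 (by decide) (by decide) (by decide) (by decide) (by decide) (by decide)
  have a11 := h 0 4 1 3 (by decide) (by decide) (by decide) (by decide) (by decide) (by decide)
  have a12 := h 0 4 2 3 (by decide) (by decide) (by decide) (by decide) (by decide) (by decide)
  have a13 := h 1 2 3 4 (by decide) (by decide) (by decide) (by decide) (by decide) (by decide)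
  have a14 := h 1 3 2 4 (by decide) (by decide) (by decide) (by decide) (by decide) (by decide)
  have a15 := h 1 4 2 3 (by decide) (by decide) (by decide) (by decide) (by decide) (by decide)
  simp only [ee] at a1 a2 a3 a4 a5 a6 a7 a8 a9 a10 a11 a12 a13 a14 a15
  norm_num [Fin.lt_def] at a1 a2 a3 a4 a5 a6 a7 a8 a9 a10 a11 a12 a13 a14 a15
  omega

theorem not_drawable_K5 : ¬ Drawable (⊤ : SimpleGraph (Fin 5)) := by
  rintro ⟨pos, S, hJ, hP, hD⟩
  have hpath : ∀ i j : Fin 5, ∃ g : ℝ → ℂ, i ≠ j →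
      Continuous g ∧ g 0 = pos i ∧ g 1 = pos j ∧ ∀ t, g t ∈ S i j := by
    intro i j
    by_cases hij : i ≠ j
    · have hJ' := hJ i j ((SimpleGraph.top_adj i j).mpr hij)
      refine ⟨hJ'.somePath.extend, fun _ => ⟨hJ'.somePath.continuous_extend, ?_, ?_, fun t => ?_⟩⟩
      · exact hJ'.somePath.extend_zero
      · exact hJ'.somePath.extend_one
      · have : hJ'.somePath.extend t ∈ range hJ'.somePath := by
          rw [← Path.extend_range]; exact mem_range_self t
        obtain ⟨s, hs⟩ := this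
        rw [← hs]
        exact hJ'.somePath_mem s
    · exact ⟨fun _ => 0, fun h => absurd h hij⟩
  choose γ hγ using hpath
  obtain ⟨n, hn⟩ := integer_relations pos γ (fun i j h => (hγ i j h).1)
    (fun i j h => (hγ i j h).2.1) (fun i j h => (hγ i j h).2.2.1)
    (fun i j k hij hki hkj t e => hP i j k ((SimpleGraph.top_adj i j).mpr hij) hki hkj
      (e ▸ (hγ i j hij).2.2.2 t))
    (fun i j k l hij hkl hik hil hjk hjl s t e => by
      have hd := hD i j k l ((SimpleGraph.top_adj i j).mpr hij)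
        ((SimpleGraph.top_adj k l).mpr hkl) hik hil hjk hjl
      exact Set.disjoint_left.mp hd ((hγ i j hij).2.2.2 s) (e ▸ (hγ k l hkl).2.2.2 t))
  exact no_integer_solution n hn

end Pool.Agent.Lib.MP_3c53dc_co
end

section

/-!
# Counting relations all of whose dyadic coarsenings are sparse
-/

namespace Pool.Agent.Lib.MP_3c53dc_co

open Finset

set_option linter.unusedSectionVars false

variable {β : Type*} [Fintype β] [DecidableEq β]

/-- Merge blocks of `2^j` consecutive positions. -/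
def coarse (j : ℕ) (x : β × ℕ) : β × ℕ := (x.1, x.2 / 2 ^ j)

/-- Coarsening of pairs. -/
def coarse2 (j : ℕ) (x : (β × ℕ) × (β × ℕ)) : (β × ℕ) × (β × ℕ) := (coarse j x.1, coarse j x.2)

/-- All dyadic coarsenings of `R` are sparse. -/
def Adm (c M : ℕ) (R : Finset ((β × ℕ) × (β × ℕ))) : Prop :=
  (∀ x ∈ R, x.1.2 < 2 ^ M ∧ x.2.2 < 2 ^ M) ∧
    ∀ j ≤ M, (R.image (coarse2 j)).card ≤ c * 2 ^ (M - j)

theorem coarse_coarse (j : ℕ) (x : β × ℕ) : coarse j (coarse 1 x) = coarse (j + 1) x := by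
  simp only [coarse, pow_one]
  rw [Nat.div_div_eq_div_mul, pow_succ, mul_comm]

theorem Adm.image {c M : ℕ} {R : Finset ((β × ℕ) × (β × ℕ))} (h : Adm c (M + 1) R) :
    Adm c M (R.image (coarse2 1)) := by
  constructor
  · intro x hx
    obtain ⟨y, hy, rfl⟩ := Finset.mem_image.mp hx
    obtain ⟨h1, h2⟩ := h.1 y hy
    simp only [coarse2, coarse, pow_one]
    rw [pow_succ] at h1 h2
    omega
  · intro j hj
    rw [Finset.image_image]
    have h2 := h.2 (j + 1) (by omega)
    have e : (coarse2 j ∘ coarse2 1 : (β × ℕ) × (β × ℕ) → _) = coarse2 (j + 1) := by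
      funext x
      simp only [Function.comp, coarse2, coarse_coarse]
    rw [e]
    have e2 : M + 1 - (j + 1) = M - j := by omega
    rwa [e2] at h2

/-- The four refinements of a pair. -/
def refine4 (p : (β × ℕ) × (β × ℕ)) : Finset ((β × ℕ) × (β × ℕ)) :=
  (({0, 1} : Finset ℕ) ×ˢ ({0, 1} : Finset ℕ)).image
    (fun a => ((p.1.1, 2 * p.1.2 + a.1), (p.2.1, 2 * p.2.2 + a.2)))

theorem card_refine4 (p : (β × ℕ) × (β × ℕ)) : (refine4 p).card ≤ 4 := by
  refine Finset.card_image_le.trans ?_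
  simp

theorem mem_refine4 (x : (β × ℕ) × (β × ℕ)) : x ∈ refine4 (coarse2 1 x) := by
  obtain ⟨⟨a, b⟩, ⟨c, d⟩⟩ := x
  refine Finset.mem_image.mpr ⟨(b % 2, d % 2), ?_, ?_⟩
  · rw [Finset.mem_product]
    constructor
    · rcases Nat.mod_two_eq_zero_or_one b with h | h <;> simp [h]
    · rcases Nat.mod_two_eq_zero_or_one d with h | h <;> simp [h]
  · simp only [coarse2, coarse, pow_one, Prod.mk.injEq]
    exact ⟨⟨trivial, by omega⟩, ⟨trivial, by omega⟩⟩

theorem exists_cover (c M : ℕ) :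
    ∃ U : Finset (Finset ((β × ℕ) × (β × ℕ))),
      U.card ≤ 2 ^ (Fintype.card β ^ 2 + 4 * c * 2 ^ M) ∧
      ∀ R : Finset ((β × ℕ) × (β × ℕ)), Adm c M R → R ∈ U := by
  induction M with
  | zero =>
    refine ⟨(((Finset.univ : Finset β) ×ˢ {0}) ×ˢ ((Finset.univ : Finset β) ×ˢ {0})).powerset,
      ?_, ?_⟩
    · rw [Finset.card_powerset]
      refine Nat.pow_le_pow_right (by norm_num) ?_
      simp only [Finset.card_product, Finset.card_univ, Finset.card_singleton, mul_one]
      rw [← sq]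
      exact Nat.le_add_right _ _
    · intro R hR
      rw [Finset.mem_powerset]
      intro x hx
      have := hR.1 x hx
      simp only [pow_zero, Nat.lt_one_iff] at this
      obtain ⟨⟨a, b⟩, ⟨a', b'⟩⟩ := x
      obtain ⟨rfl, rfl⟩ := this
      simp
  | succ M ih =>
    obtain ⟨U, hU, hcov⟩ := ih
    refine ⟨(U.filter (fun R => R.card ≤ c * 2 ^ M)).biUnion
      (fun R => (R.biUnion refine4).powerset), ?_, ?_⟩
    · refine Finset.card_biUnion_le.trans ?_
      calc ∑ R ∈ U.filter (fun R => R.card ≤ c * 2 ^ M), (R.biUnion refine4).powerset.card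
          ≤ ∑ R ∈ U.filter (fun R => R.card ≤ c * 2 ^ M), 2 ^ (4 * c * 2 ^ M) := by
            refine Finset.sum_le_sum fun R hR => ?_
            rw [Finset.card_powerset]
            refine Nat.pow_le_pow_right (by norm_num) ?_
            refine Finset.card_biUnion_le.trans ?_
            calc ∑ p ∈ R, (refine4 p).card ≤ ∑ p ∈ R, 4 :=
                  Finset.sum_le_sum fun p _ => card_refine4 p
              _ = R.card * 4 := by rw [Finset.sum_const, smul_eq_mul]
              _ ≤ c * 2 ^ M * 4 := Nat.mul_le_mul_right _ (Finset.mem_filter.mp hR).2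
              _ = 4 * c * 2 ^ M := by ring
        _ = (U.filter (fun R => R.card ≤ c * 2 ^ M)).card * 2 ^ (4 * c * 2 ^ M) := by
            rw [Finset.sum_const, smul_eq_mul]
        _ ≤ 2 ^ (Fintype.card β ^ 2 + 4 * c * 2 ^ M) * 2 ^ (4 * c * 2 ^ M) :=
            Nat.mul_le_mul_right _ ((Finset.card_filter_le _ _).trans hU)
        _ = 2 ^ (Fintype.card β ^ 2 + 4 * c * 2 ^ (M + 1)) := by
            rw [← pow_add]; congr 1; ring
    · intro R hR
      have h1 := hcov _ hR.image
      refine Finset.mem_biUnion.mpr ⟨R.image (coarse2 1), Finset.mem_filter.mpr ⟨h1, ?_⟩, ?_⟩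
      · have := hR.2 1 (by omega)
        simpa using this
      · rw [Finset.mem_powerset]
        intro x hx
        exact Finset.mem_biUnion.mpr ⟨coarse2 1 x, Finset.mem_image_of_mem _ hx, mem_refine4 x⟩

end Pool.Agent.Lib.MP_3c53dc_co
end
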