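import Mathlib
import Pool.Agent.Lib.MP_3c53dc_co.Count

section

/-!
# Minors of drawable graphs are drawable; cones
-/

namespace Pool.Agent.Lib.MP_3c53dc_co

open Set

theorem Drawable.minor {W V : Type*} {H : SimpleGraph W} {G : SimpleGraph V}
    (hG : Drawable G) (hm : IsMinor H G) : Drawable H := by
  classical
  obtain ⟨pos, S, hJ, hP, hD⟩ := hG
  obtain ⟨B, hne, hcon, hdis, hadj⟩ := hm
  choose b hb using hne
  let S' : W → W → Set ℂ := fun w w' =>
    ⋃ (u : V) (v : V) (_ : G.Adj u v ∧ (u ∈ B w ∨ u ∈ B w') ∧ (v ∈ B w ∨ v ∈ B w')), S u v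
  have hsub : ∀ w w' u v, G.Adj u v → (u ∈ B w ∨ u ∈ B w') → (v ∈ B w ∨ v ∈ B w') →
      S u v ⊆ S' w w' := by
    intro w w' u v h h1 h2 z hz
    exact mem_iUnion.mpr ⟨u, mem_iUnion.mpr ⟨v, mem_iUnion.mpr ⟨⟨h, h1, h2⟩, hz⟩⟩⟩
  refine ⟨fun w => pos (b w), S', ?_, ?_, ?_⟩
  · intro w w' hww
    obtain ⟨u, hu, v, hv, huv⟩ := hadj w w' hww
    have j0 : JoinedIn (S' w w') (pos u) (pos v) :=
      (hJ u v huv).mono (hsub w w' u v huv (Or.inl hu) (Or.inr hv))
    -- joining along paths inside a branch set
    have j1 : ∀ x y, Relation.ReflTransGen (fun a b => a ∈ B w ∧ b ∈ B w ∧ G.Adj a b) x y →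
        JoinedIn (S' w w') (pos y) (pos v) → JoinedIn (S' w w') (pos x) (pos v) := by
      intro x y hxy
      induction hxy using Relation.ReflTransGen.head_induction_on with
      | refl => exact id
      | head h _ ih =>
        intro h'
        exact ((hJ _ _ h.2.2).mono (hsub w w' _ _ h.2.2 (Or.inl h.1) (Or.inl h.2.1))).trans
          (ih h')
    have j2 : ∀ x y, Relation.ReflTransGen (fun a b => a ∈ B w' ∧ b ∈ B w' ∧ G.Adj a b) x y →
        ∀ z, JoinedIn (S' w w') z (pos x) → JoinedIn (S' w w') z (pos y) := by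
      intro x y hxy
      induction hxy with
      | refl => exact fun z h => h
      | tail _ h ih =>
        intro z h'
        exact (ih z h').trans
          ((hJ _ _ h.2.2).mono (hsub w w' _ _ h.2.2 (Or.inr h.1) (Or.inr h.2.1)))
    exact j2 v (b w') (hcon w' v hv (b w') (hb w')) _
      (j1 (b w) u (hcon w (b w) (hb w) u hu) j0)
  · intro w w' x hww hxw hxw' hx
    obtain ⟨u, hx⟩ := mem_iUnion.mp hx
    obtain ⟨v, hx⟩ := mem_iUnion.mp hx
    obtain ⟨⟨huv, hu, hv⟩, hx⟩ := mem_iUnion.mp hx
    have hbx : ∀ z, z ∈ B w ∨ z ∈ B w' → b x ≠ z := by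
      rintro z (hz | hz) rfl
      · exact Set.disjoint_left.mp (hdis x w hxw) (hb x) hz
      · exact Set.disjoint_left.mp (hdis x w' hxw') (hb x) hz
    exact hP u v (b x) huv (hbx u hu) (hbx v hv) hx
  · intro w w' z z' hww hzz h1 h2 h3 h4
    rw [Set.disjoint_left]
    intro p hp hp'
    obtain ⟨u, hp⟩ := mem_iUnion.mp hp
    obtain ⟨v, hp⟩ := mem_iUnion.mp hp
    obtain ⟨⟨huv, hu, hv⟩, hp⟩ := mem_iUnion.mp hp
    obtain ⟨u', hp'⟩ := mem_iUnion.mp hp'
    obtain ⟨v', hp'⟩ := mem_iUnion.mp hp'
    obtain ⟨⟨huv', hu', hv'⟩, hp'⟩ := mem_iUnion.mp hp'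
    have hne : ∀ a c, (a ∈ B w ∨ a ∈ B w') → (c ∈ B z ∨ c ∈ B z') → a ≠ c := by
      rintro a c (ha | ha) (hc | hc) rfl
      · exact Set.disjoint_left.mp (hdis w z h1) ha hc
      · exact Set.disjoint_left.mp (hdis w z' h2) ha hc
      · exact Set.disjoint_left.mp (hdis w' z h3) ha hc
      · exact Set.disjoint_left.mp (hdis w' z' h4) ha hc
    exact Set.disjoint_left.mp (hD u v u' v' huv huv' (hne _ _ hu hu') (hne _ _ hu hv')
      (hne _ _ hv hu') (hne _ _ hv hv')) hp hp'

/-- An injective homomorphism gives a minor. -/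
theorem isMinor_of_injective {W V : Type*} {H : SimpleGraph W} {G : SimpleGraph V}
    (f : W → V) (hf : Function.Injective f) (h : ∀ w w', H.Adj w w' → G.Adj (f w) (f w')) :
    IsMinor H G := by
  refine ⟨fun w => {f w}, fun w => ⟨f w, rfl⟩, ?_, ?_, ?_⟩
  · rintro w x rfl y rfl
    exact Relation.ReflTransGen.refl
  · intro w w' hww
    rw [Set.disjoint_left]
    rintro x rfl hx
    exact hww (hf hx)
  · intro w w' hww
    exact ⟨f w, rfl, f w', rfl, h w w' hww⟩

/-- The cone over a minor is a minor of the cone. -/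
theorem IsMinor.cone {W V : Type*} {H : SimpleGraph W} {G : SimpleGraph V}
    (h : IsMinor H G) : IsMinor (cone H) (cone G) := by
  obtain ⟨B, hne, hcon, hdis, hadj⟩ := h
  refine ⟨fun w => match w with
    | none => {none}
    | some w => some '' B w, ?_, ?_, ?_, ?_⟩
  · rintro (_ | w)
    · exact ⟨none, rfl⟩
    · exact (hne w).image _
  · rintro (_ | w)
    · rintro x rfl y rfl
      exact Relation.ReflTransGen.refl
    · rintro x ⟨x, hx, rfl⟩ y ⟨y, hy, rfl⟩
      have hxy := hcon w x hx y hy
      induction hxy with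
      | refl => exact Relation.ReflTransGen.refl
      | @tail a b _ hab ih =>
        exact (ih hab.1).tail ⟨⟨a, hab.1, rfl⟩, ⟨b, hab.2.1, rfl⟩,
          Or.inr (Or.inr ⟨a, b, rfl, rfl, hab.2.2⟩)⟩
  · rintro (_ | w) (_ | w') hww
    · exact absurd rfl hww
    · rw [Set.disjoint_left]
      rintro x rfl ⟨y, _, hy⟩
      cases hy
    · rw [Set.disjoint_left]
      rintro x ⟨y, _, rfl⟩ hy
      cases hy
    · rw [Set.disjoint_left]
      rintro x ⟨y, hy, rfl⟩ ⟨z, hz, hzy⟩
      obtain rfl := Option.some.inj hzy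
      exact Set.disjoint_left.mp (hdis w w' (fun e => hww (e ▸ rfl))) hy hz
  · rintro (_ | w) (_ | w') (h | h | ⟨u, v, hu, hv, h⟩)
    · exact absurd rfl h.2
    · exact absurd rfl h.2
    · cases hu
    · obtain ⟨x, hx⟩ := hne w'
      exact ⟨none, rfl, some x, ⟨x, hx, rfl⟩, Or.inl ⟨rfl, by simp⟩⟩
    · cases h.1
    · cases hu
    · cases h.1
    · obtain ⟨x, hx⟩ := hne w
      exact ⟨some x, ⟨x, hx, rfl⟩, none, rfl, Or.inr (Or.inl ⟨rfl, by simp⟩)⟩
    · cases hv
    · cases h.1
    · cases h.1
    · obtain rfl := Option.some.inj hu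
      obtain rfl := Option.some.inj hv
      obtain ⟨x, hx, y, hy, hxy⟩ := hadj w w' h
      exact ⟨some x, ⟨x, hx, rfl⟩, some y, ⟨y, hy, rfl⟩, Or.inr (Or.inr ⟨x, y, rfl, rfl, hxy⟩)⟩

end Pool.Agent.Lib.MP_3c53dc_co
end

section

/-!
# Drawable graphs have at most linearly many edges
-/

namespace Pool.Agent.Lib.MP_3c53dc_co

open Finset

open Classical in
/-- The ordered adjacent pairs of a finite graph. -/
noncomputable def adjPairs {V : Type*} [Fintype V] (G : SimpleGraph V) : Finset (V × V) :=
  Finset.univ.filter (fun p => G.Adj p.1 p.2)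

theorem mem_adjPairs {V : Type*} [Fintype V] (G : SimpleGraph V) (p : V × V) :
    p ∈ adjPairs G ↔ G.Adj p.1 p.2 := by
  classical
  simp [adjPairs]

/-- A class of graphs is closed under minors. -/
def MinorClosed (P : (V : Type) → SimpleGraph V → Prop) : Prop :=
  ∀ (V W : Type) (G : SimpleGraph V) (H : SimpleGraph W), IsMinor H G → P V G → P W H

/-- The members of the class have at most `c |V|` edges. -/
def EdgeBound (P : (V : Type) → SimpleGraph V → Prop) (c : ℕ) : Prop :=
  ∀ (V : Type) [Fintype V] (G : SimpleGraph V), P V G →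
    (adjPairs G).card ≤ 2 * c * Fintype.card V

/-- The graphs whose cone is in the class. -/
def coneClass (P : (V : Type) → SimpleGraph V → Prop) : (V : Type) → SimpleGraph V → Prop :=
  fun V G => P (Option V) (cone G)

theorem MinorClosed.coneClass {P : (V : Type) → SimpleGraph V → Prop} (h : MinorClosed P) :
    MinorClosed (coneClass P) :=
  fun _ _ _ _ hm hG => h _ _ _ _ hm.cone hG

open Classical in
theorem card_adjPairs {V : Type*} [Fintype V] (G : SimpleGraph V) :
    (adjPairs G).card = ∑ x : V, (Finset.univ.filter (fun y => G.Adj x y)).card := by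
  rw [adjPairs, Finset.card_filter, Fintype.sum_prod_type]
  refine Finset.sum_congr rfl fun x _ => ?_
  rw [Finset.card_filter]

open Classical in
theorem edge_step {P : (V : Type) → SimpleGraph V → Prop} (hP : MinorClosed P) {c : ℕ}
    (h : EdgeBound (coneClass P) c) : EdgeBound P (2 * c + 1) := by
  suffices H : ∀ (n : ℕ) (V : Type) [Fintype V] (G : SimpleGraph V), Fintype.card V = n → P V G →
      (adjPairs G).card ≤ 2 * (2 * c + 1) * Fintype.card V from
    fun V _ G hG => H _ V G rfl hG
  intro n
  induction n with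
  | zero =>
    intro V _ G hn _
    have : IsEmpty V := Fintype.card_eq_zero_iff.mp hn
    have : adjPairs G = ∅ := Finset.eq_empty_of_forall_notMem (fun p _ => IsEmpty.false p.1)
    rw [this]; simp
  | succ n ih =>
    intro V _ G hn hG
    by_cases hE : ∃ v x, G.Adj v x
    swap
    · have : adjPairs G = ∅ := Finset.eq_empty_of_forall_notMem
        (fun p hp => hE ⟨p.1, p.2, (mem_adjPairs G p).mp hp⟩)
      rw [this]; simp
    obtain ⟨v, x₀, hvx⟩ := hE
    -- the neighbourhood of `v`
    let N : Type := {x // G.Adj v x}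
    let GN : SimpleGraph N := G.comap (fun x : N => x.1)
    have hGN : coneClass P N GN := by
      refine hP V (Option N) G (cone GN) ?_ hG
      refine isMinor_of_injective (fun o => match o with | none => v | some x => x.1) ?_ ?_
      · rintro (_ | x) (_ | y) hxy
        · rfl
        · exact absurd hxy y.2.ne
        · exact absurd hxy.symm x.2.ne
        · exact congrArg some (Subtype.ext hxy)
      · rintro (_ | x) (_ | y) (h | h | ⟨a, b, ha, hb, h⟩)
        · exact absurd rfl h.2
        · exact absurd rfl h.2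
        · cases ha
        · exact y.2
        · cases h.1
        · cases ha
        · cases h.1
        · exact x.2.symm
        · cases hb
        · cases h.1
        · cases h.1
        · obtain rfl := Option.some.inj ha
          obtain rfl := Option.some.inj hb
          exact h
    have hN := h N GN hGN
    rw [card_adjPairs] at hN
    obtain ⟨u, -, hu⟩ : ∃ u ∈ (Finset.univ : Finset N),
        (Finset.univ.filter (fun y => GN.Adj u y)).card ≤ 2 * c := by
      refine Finset.exists_le_of_sum_le ⟨⟨x₀, hvx⟩, Finset.mem_univ _⟩ ?_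
      rw [Finset.sum_const, Finset.card_univ, smul_eq_mul, mul_comm]
      exact hN
    obtain ⟨u, huv⟩ := u
    -- the common neighbours
    let K : Finset V := Finset.univ.filter (fun y => G.Adj v y ∧ G.Adj u y)
    have hK : K.card ≤ 2 * c := by
      refine le_trans ?_ hu
      refine Finset.card_le_card_of_surjOn (fun y : N => y.1) ?_
      intro y hy
      have hy' := (Finset.mem_filter.mp hy).2
      exact ⟨⟨y, hy'.1⟩, Finset.mem_coe.mpr (Finset.mem_filter.mpr ⟨Finset.mem_univ _, hy'.2⟩), rfl⟩
    -- the contracted graph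
    let V' : Type := {x : V // x ≠ u}
    let G' : SimpleGraph V' :=
      { Adj := fun x y => x ≠ y ∧ (G.Adj x.1 y.1 ∨ (x.1 = v ∧ G.Adj u y.1) ∨ (y.1 = v ∧ G.Adj u x.1))
        symm := ⟨by
          rintro x y ⟨h1, h2⟩
          refine ⟨h1.symm, ?_⟩
          rcases h2 with h2 | h2 | h2
          · exact Or.inl h2.symm
          · exact Or.inr (Or.inr h2)
          · exact Or.inr (Or.inl h2)⟩
        loopless := ⟨fun x h => h.1 rfl⟩ }
    have hcard : Fintype.card V' = n := by
      have : Fintype.card V' = Fintype.card V - 1 := by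
        rw [Fintype.card_subtype_compl, Fintype.card_subtype_eq]
      omega
    have hG' : P V' G' := by
      refine hP V V' G G' ?_ hG
      refine ⟨fun x => if x.1 = v then {u, v} else {x.1}, ?_, ?_, ?_, ?_⟩
      · intro x
        by_cases hx : x.1 = v
        · simp only [hx, if_true]; exact ⟨u, Or.inl rfl⟩
        · simp only [hx, if_false]; exact ⟨x.1, rfl⟩
      · intro x
        by_cases hx : x.1 = v
        · simp only [hx, if_true]
          rintro a (rfl | ha) b (rfl | hb)
          · exact Relation.ReflTransGen.refl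
          · have hb' : b = v := hb
            subst hb'
            exact Relation.ReflTransGen.single ⟨Or.inl rfl, Or.inr rfl, huv.symm⟩
          · have ha' : a = v := ha
            subst ha'
            exact Relation.ReflTransGen.single ⟨Or.inr rfl, Or.inl rfl, huv⟩
          · have hb' : b = v := hb
            have ha' : a = v := ha
            rw [ha', hb']
        · simp only [hx, if_false]
          rintro a rfl b rfl
          exact Relation.ReflTransGen.refl
      · intro x y hxy
        have hxy' : x.1 ≠ y.1 := fun e => hxy (Subtype.ext e)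
        by_cases hx : x.1 = v
        · by_cases hy : y.1 = v
          · exact absurd (hx.trans hy.symm) hxy'
          · simp only [hx, hy, if_true, if_false]
            rw [Set.disjoint_left]
            rintro a (rfl | ha) hb
            · exact y.2 (Eq.symm hb)
            · exact hy ((Eq.symm hb).trans ha)
        · by_cases hy : y.1 = v
          · simp only [hx, hy, if_true, if_false]
            rw [Set.disjoint_left]
            rintro a ha (rfl | hb)
            · exact x.2 (Eq.symm ha)
            · exact hx ((Eq.symm ha).trans hb)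
          · simp only [hx, hy, if_false]
            rw [Set.disjoint_left]
            rintro a ha hb
            exact hxy' ((Eq.symm ha).trans hb)
      · rintro x y ⟨hxy, h2⟩
        have hxy' : x.1 ≠ y.1 := fun e => hxy (Subtype.ext e)
        have hmem : ∀ z : V', z.1 ∈ (if z.1 = v then ({u, v} : Set V) else {z.1}) := by
          intro z
          by_cases hz : z.1 = v
          · simp [hz]
          · simp [hz]
        have hmem2 : ∀ z : V', z.1 = v → u ∈ (if z.1 = v then ({u, v} : Set V) else {z.1}) := by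
          intro z hz
          simp [hz]
        rcases h2 with h2 | ⟨h3, h2⟩ | ⟨h3, h2⟩
        · exact ⟨x.1, hmem x, y.1, hmem y, h2⟩
        · exact ⟨u, hmem2 x h3, y.1, hmem y, h2⟩
        · exact ⟨x.1, hmem x, u, hmem2 y h3, h2.symm⟩
    have hI := ih V' G' hcard hG'
    rw [hcard] at hI
    -- counting
    let bad : Finset (V × V) :=
      (insert v K).image (fun y => (u, y)) ∪ (insert v K).image (fun y => (y, u))
    have hbad : bad.card ≤ 2 * (2 * c + 1) := by
      have h1 : (insert v K).card ≤ 2 * c + 1 := (Finset.card_insert_le _ _).trans (by omega)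
      calc bad.card ≤ _ := Finset.card_union_le _ _
        _ ≤ (insert v K).card + (insert v K).card :=
          Nat.add_le_add Finset.card_image_le Finset.card_image_le
        _ ≤ 2 * (2 * c + 1) := by omega
    have hvu : v ≠ u := huv.ne
    let g : V → V' := fun x => if hx : x = u then ⟨v, hvu⟩ else ⟨x, hx⟩
    have hg1 : (g u).1 = v := by simp [g]
    have hg2 : ∀ x, x ≠ u → (g x).1 = x := by intro x hx; simp [g, hx]
    have hinj : ((adjPairs G) \ bad).card ≤ (adjPairs G').card := by
      refine Finset.card_le_card_of_injOn (fun p => (g p.1, g p.2)) ?_ ?_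
      · rintro ⟨x, y⟩ hp
        obtain ⟨hp1, hp2⟩ := Finset.mem_sdiff.mp hp
        rw [mem_adjPairs] at hp1
        rw [Finset.mem_coe, mem_adjPairs]
        change G.Adj x y at hp1
        by_cases hx : x = u
        · have hy : y ≠ u := fun e => hp1.ne (hx.trans e.symm)
          have hyv : y ≠ v := by
            rintro rfl
            exact hp2 (Finset.mem_union_left _ (Finset.mem_image.mpr
              ⟨y, Finset.mem_insert_self _ _, by rw [hx]⟩))
          refine ⟨fun e => ?_, Or.inr (Or.inl ⟨?_, ?_⟩)⟩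
          · have := congrArg Subtype.val e
            simp only [hx] at this
            rw [hg1, hg2 y hy] at this
            exact hyv this.symm
          · simp only [hx]; exact hg1
          · simp only [hg2 y hy]; rw [← hx]; exact hp1
        · by_cases hy : y = u
          · have hxv : x ≠ v := by
              rintro rfl
              exact hp2 (Finset.mem_union_right _ (Finset.mem_image.mpr
                ⟨x, Finset.mem_insert_self _ _, by rw [hy]⟩))
            refine ⟨fun e => ?_, Or.inr (Or.inr ⟨?_, ?_⟩)⟩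
            · have := congrArg Subtype.val e
              simp only [hy] at this
              rw [hg1, hg2 x hx] at this
              exact hxv this
            · simp only [hy]; exact hg1
            · simp only [hg2 x hx]; rw [← hy]; exact hp1.symm
          · refine ⟨fun e => ?_, Or.inl ?_⟩
            · have := congrArg Subtype.val e
              simp only at this
              rw [hg2 x hx, hg2 y hy] at this
              exact hp1.ne this
            · simp only [hg2 x hx, hg2 y hy]; exact hp1
      · -- injectivity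
        -- a good pair starting in `u` cannot be identified with another pair
        have hgood : ∀ x y, G.Adj x y → (x, y) ∉ bad → x = u →
            y ≠ u ∧ y ≠ v ∧ ¬ G.Adj v y := by
          intro x y hxy hb hx
          have hy : y ≠ u := fun e => hxy.ne (hx.trans e.symm)
          have hyv : y ≠ v := by
            rintro rfl
            exact hb (Finset.mem_union_left _ (Finset.mem_image.mpr
              ⟨y, Finset.mem_insert_self _ _, by rw [hx]⟩))
          refine ⟨hy, hyv, fun hvy => ?_⟩
          refine hb (Finset.mem_union_left _ (Finset.mem_image.mpr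
              ⟨y, Finset.mem_insert_of_mem (Finset.mem_filter.mpr
                ⟨Finset.mem_univ _, hvy, ?_⟩), by rw [hx]⟩))
          rw [← hx]; exact hxy
        have hgood2 : ∀ x y, G.Adj x y → (x, y) ∉ bad → y = u →
            x ≠ u ∧ x ≠ v ∧ ¬ G.Adj v x := by
          intro x y hxy hb hy
          have hx : x ≠ u := fun e => hxy.ne (e.trans hy.symm)
          have hxv : x ≠ v := by
            rintro rfl
            exact hb (Finset.mem_union_right _ (Finset.mem_image.mpr
              ⟨x, Finset.mem_insert_self _ _, by rw [hy]⟩))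
          refine ⟨hx, hxv, fun hvx => ?_⟩
          refine hb (Finset.mem_union_right _ (Finset.mem_image.mpr
              ⟨x, Finset.mem_insert_of_mem (Finset.mem_filter.mpr
                ⟨Finset.mem_univ _, hvx, ?_⟩), by rw [hy]⟩))
          rw [← hy]; exact hxy.symm
        have hgg : ∀ x x', (g x).1 = (g x').1 → x = x' ∨ (x = u ∧ x' = v) ∨ (x = v ∧ x' = u) := by
          intro x x' e
          by_cases hx : x = u
          · by_cases hx' : x' = u
            · exact Or.inl (hx.trans hx'.symm)
            · rw [hx, hg1, hg2 x' hx'] at e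
              exact Or.inr (Or.inl ⟨hx, e.symm⟩)
          · by_cases hx' : x' = u
            · rw [hx', hg1, hg2 x hx] at e
              exact Or.inr (Or.inr ⟨e, hx'⟩)
            · rw [hg2 x hx, hg2 x' hx'] at e
              exact Or.inl e
        rintro ⟨x, y⟩ hp ⟨x', y'⟩ hp' e
        obtain ⟨hp1, hp2⟩ := Finset.mem_sdiff.mp (Finset.mem_coe.mp hp)
        obtain ⟨hp1', hp2'⟩ := Finset.mem_sdiff.mp (Finset.mem_coe.mp hp')
        rw [mem_adjPairs] at hp1 hp1'
        change G.Adj x y at hp1
        change G.Adj x' y' at hp1'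
        have e1 : (g x).1 = (g x').1 := congrArg (fun q : V' × V' => q.1.1) e
        have e2 : (g y).1 = (g y').1 := congrArg (fun q : V' × V' => q.2.1) e
        rcases hgg x x' e1 with h1 | ⟨h1, h1'⟩ | ⟨h1, h1'⟩
        · rcases hgg y y' e2 with h2 | ⟨h2, h2'⟩ | ⟨h2, h2'⟩
          · rw [h1, h2]
          · have := hgood2 x y hp1 hp2 h2
            exact absurd (by rw [h1, ← h2']; exact hp1'.symm) this.2.2
          · have := hgood2 x' y' hp1' hp2' h2'
            exact absurd (by rw [← h1, ← h2]; exact hp1.symm) this.2.2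
        · have h3 := hgood x y hp1 hp2 h1
          rcases hgg y y' e2 with h2 | ⟨h2, h2'⟩ | ⟨h2, h2'⟩
          · exact absurd (by rw [h2, ← h1']; exact hp1') h3.2.2
          · exact absurd h2 h3.1
          · exact absurd h2 h3.2.1
        · have h3 := hgood x' y' hp1' hp2' h1'
          rcases hgg y y' e2 with h2 | ⟨h2, h2'⟩ | ⟨h2, h2'⟩
          · exact absurd (by rw [← h2, ← h1]; exact hp1) h3.2.2
          · exact absurd h2' h3.2.1
          · exact absurd h2' h3.1
    have hfin : (adjPairs G).card ≤ ((adjPairs G) \ bad).card + bad.card := by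
      have := Finset.le_card_sdiff bad (adjPairs G)
      omega
    rw [hn]
    calc (adjPairs G).card ≤ ((adjPairs G) \ bad).card + bad.card := hfin
      _ ≤ 2 * (2 * c + 1) * n + 2 * (2 * c + 1) := Nat.add_le_add (hinj.trans hI) hbad
      _ = 2 * (2 * c + 1) * (n + 1) := by ring

/-- Triple cones over drawable graphs. -/
theorem base : EdgeBound (coneClass (coneClass (coneClass (fun _ G => Drawable G)))) 0 := by
  intro V _ G hG
  rw [mul_zero, zero_mul, Nat.le_zero, Finset.card_eq_zero]
  refine Finset.eq_empty_of_forall_notMem ?_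
  rintro ⟨a, b⟩ hab
  rw [mem_adjPairs] at hab
  change G.Adj a b at hab
  change Drawable (cone (cone (cone G))) at hG
  refine not_drawable_K5 (hG.minor (isMinor_of_injective
    ![none, some none, some (some none), some (some (some a)), some (some (some b))] ?_ ?_))
  · intro i j hij
    have hne := hab.ne
    fin_cases i <;> fin_cases j <;> simp_all
  · have key : ∀ i j : Fin 5, i < j → (cone (cone (cone G))).Adj
        (![none, some none, some (some none), some (some (some a)), some (some (some b))] i)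
        (![none, some none, some (some none), some (some (some a)), some (some (some b))] j) := by
      intro i j hij
      have c1 : ∀ {V : Type} (G : SimpleGraph V) (x : V), (cone G).Adj none (some x) :=
        fun G x => Or.inl ⟨rfl, by simp⟩
      have c2 : ∀ {V : Type} (G : SimpleGraph V) (x y : V), G.Adj x y →
          (cone G).Adj (some x) (some y) :=
        fun G x y h => Or.inr (Or.inr ⟨x, y, rfl, rfl, h⟩)
      fin_cases i <;> fin_cases j <;>
        first
        | exact absurd hij (by decide)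
        | exact c1 _ _
        | exact c2 _ _ _ (c1 _ _)
        | exact c2 _ _ _ (c2 _ _ _ (c1 _ _))
        | exact c2 _ _ _ (c2 _ _ _ (c2 _ _ _ hab))
    intro i j hij
    rcases lt_or_gt_of_ne (SimpleGraph.ne_of_adj _ hij) with h | h
    · exact key i j h
    · exact (key j i h).symm

/-- A drawable graph on a finite vertex set has at most `7 |V|` edges. -/
theorem drawable_edge_bound (V : Type) [Fintype V] (G : SimpleGraph V) (hG : Drawable G) :
    (adjPairs G).card ≤ 14 * Fintype.card V := by
  have hmc : MinorClosed (fun _ G => Drawable G) := fun V W G H hm hG => hG.minor hm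
  have h1 := edge_step hmc.coneClass.coneClass base
  have h2 := edge_step hmc.coneClass h1
  have h3 := edge_step hmc h2
  exact h3 V G hG

end Pool.Agent.Lib.MP_3c53dc_co
end

section

/-!
# Two pencils of curves: the associated graph is drawable, and few orders occur
-/

namespace Pool.Agent.Lib.MP_3c53dc_co

open Set

/-- A pencil of `T` curves through `C` and a pencil of `T` curves through `A`, any two of the
`2T` curves having at most one common point, with all `T²` crossing points `P i q`. -/
structure Pencils (T : ℕ) where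
  P : Fin T → Fin T → ℂ
  c : Fin T → unitInterval → ℂ
  a : Fin T → unitInterval → ℂ
  tc : Fin T → Fin T → unitInterval
  ta : Fin T → Fin T → unitInterval
  C0 : Fin T → unitInterval
  A0 : Fin T → unitInterval
  C : ℂ
  A : ℂ
  cont_c : ∀ q, Continuous (c q)
  cont_a : ∀ i, Continuous (a i)
  inj_c : ∀ q, Function.Injective (c q)
  inj_a : ∀ i, Function.Injective (a i)
  c_tc : ∀ q i, c q (tc q i) = P i q
  a_ta : ∀ i q, a i (ta i q) = P i q
  c_C0 : ∀ q, c q (C0 q) = C
  a_A0 : ∀ i, a i (A0 i) = A
  inter_cc : ∀ q q', q ≠ q' → (range (c q) ∩ range (c q')).Subsingleton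
  inter_aa : ∀ i i', i ≠ i' → (range (a i) ∩ range (a i')).Subsingleton
  inter_ca : ∀ q i, (range (c q) ∩ range (a i)).Subsingleton
  P_ne_C : ∀ i q, P i q ≠ C
  P_ne_A : ∀ i q, P i q ≠ A

/-- Exchange the two pencils. -/
def Pencils.swap {T : ℕ} (pc : Pencils T) : Pencils T where
  P := fun q i => pc.P i q
  c := pc.a
  a := pc.c
  tc := pc.ta
  ta := pc.tc
  C0 := pc.A0
  A0 := pc.C0
  C := pc.A
  A := pc.C
  cont_c := pc.cont_a
  cont_a := pc.cont_c
  inj_c := pc.inj_a
  inj_a := pc.inj_c
  c_tc := pc.a_ta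
  a_ta := pc.c_tc
  c_C0 := pc.a_A0
  a_A0 := pc.c_C0
  inter_cc := pc.inter_aa
  inter_aa := pc.inter_cc
  inter_ca := fun i q => by rw [Set.inter_comm]; exact pc.inter_ca q i
  P_ne_C := fun q i => pc.P_ne_A i q
  P_ne_A := fun q i => pc.P_ne_C i q

/-- `i` and `i'` are consecutive among the parameters `t`, with `t0` not between them. -/
def Consec {T : ℕ} (t : Fin T → unitInterval) (t0 : unitInterval) (i i' : Fin T) : Prop :=
  i ≠ i' ∧ (∀ k, t k ∈ uIcc (t i) (t i') → k = i ∨ k = i') ∧ t0 ∉ uIcc (t i) (t i')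

theorem Consec.symm {T : ℕ} {t : Fin T → unitInterval} {t0 : unitInterval} {i i' : Fin T}
    (h : Consec t t0 i i') : Consec t t0 i' i :=
  ⟨h.1.symm, fun k hk => (h.2.1 k (by rwa [uIcc_comm])).symm, by
    rw [uIcc_comm]; exact h.2.2⟩

theorem exists_rank {T : ℕ} (t : Fin T → unitInterval) (ht : Function.Injective t) :
    ∃ ρ : Equiv.Perm (Fin T), ∀ i i', ρ i < ρ i' ↔ t i < t i' := by
  refine ⟨(Tuple.sort t).symm, fun i i' => ?_⟩
  have hm : StrictMono (t ∘ Tuple.sort t) :=
    (Tuple.monotone_sort t).strictMono_of_injective (ht.comp (Equiv.injective _))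
  have := hm.lt_iff_lt (a := (Tuple.sort t).symm i) (b := (Tuple.sort t).symm i')
  simp only [Function.comp, Equiv.apply_symm_apply] at this
  exact this.symm

theorem rtg_symm {α : Type*} {r : α → α → Prop} (h : ∀ x y, r x y → r y x) {x y : α}
    (hxy : Relation.ReflTransGen r x y) : Relation.ReflTransGen r y x := by
  induction hxy with
  | refl => exact Relation.ReflTransGen.refl
  | tail _ hab ih => exact Relation.ReflTransGen.head (h _ _ hab) ih

theorem conn_lin {T : ℕ} (t : Fin T → unitInterval) (t0 : unitInterval)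
    (ρ : Equiv.Perm (Fin T)) (hρ : ∀ i i', ρ i < ρ i' ↔ t i < t i') (h0 : ∀ i, t i ≠ t0)
    (K : Set (Fin T))
    (hK : ∀ i ∈ K, ∀ i' ∈ K, ∀ k, ρ i ≤ ρ k → ρ k ≤ ρ i' → k ∈ K)
    (hside : ∀ i ∈ K, ∀ i' ∈ K, t i < t0 → t i' < t0) :
    ∀ i ∈ K, ∀ i' ∈ K,
      Relation.ReflTransGen (fun x y => x ∈ K ∧ y ∈ K ∧ Consec t t0 x y) i i' := by
  have hle : ∀ i i', ρ i ≤ ρ i' ↔ t i ≤ t i' := by
    intro i i'
    rw [← not_lt, ← not_lt, hρ]
  have key : ∀ d : ℕ, ∀ i ∈ K, ∀ i' ∈ K, (ρ i' : ℕ) = (ρ i : ℕ) + d →
      Relation.ReflTransGen (fun x y => x ∈ K ∧ y ∈ K ∧ Consec t t0 x y) i i' := by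
    intro d
    induction d with
    | zero =>
      intro i _ i' _ h
      have : ρ i' = ρ i := Fin.ext (by simpa using h)
      rw [ρ.injective this]
    | succ d ih =>
      intro i hi i' hi' h
      have hlt : (ρ i : ℕ) + 1 < T := by
        have := (ρ i').isLt
        omega
      let k : Fin T := ρ.symm ⟨(ρ i : ℕ) + 1, hlt⟩
      have hk : (ρ k : ℕ) = (ρ i : ℕ) + 1 := by simp [k]
      have h1 : ρ i ≤ ρ k := by rw [Fin.le_def]; omega
      have h2 : ρ k ≤ ρ i' := by rw [Fin.le_def]; omega
      have hkK : k ∈ K := hK i hi i' hi' k h1 h2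
      refine Relation.ReflTransGen.head ⟨hi, hkK, ?_⟩ (ih k hkK i' hi' (by omega))
      have htik : t i < t k := by rw [← hρ, Fin.lt_def]; omega
      refine ⟨?_, ?_, ?_⟩
      · rintro e
        rw [← e] at hk
        omega
      · intro m hm
        rw [uIcc_of_le htik.le] at hm
        have a1 := (hle i m).mpr hm.1
        have a2 := (hle m k).mpr hm.2
        rw [Fin.le_def] at a1 a2
        rcases Nat.lt_or_ge (ρ i : ℕ) (ρ m : ℕ) with h3 | h3
        · right
          exact ρ.injective (Fin.ext (by omega))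
        · left
          exact ρ.injective (Fin.ext (by omega))
      · intro hm
        rw [uIcc_of_le htik.le] at hm
        have a1 : t i < t0 := lt_of_le_of_ne hm.1 (h0 i)
        have a2 : t k < t0 := hside i hi k hkK a1
        exact absurd hm.2 (not_le.mpr a2)
  intro i hi i' hi'
  rcases Nat.le_total (ρ i : ℕ) (ρ i' : ℕ) with h | h
  · obtain ⟨d, hd⟩ := Nat.exists_eq_add_of_le h
    exact key d i hi i' hi' hd
  · obtain ⟨d, hd⟩ := Nat.exists_eq_add_of_le h
    exact rtg_symm (fun x y h => ⟨h.2.1, h.1, h.2.2.symm⟩) (key d i' hi' i hi hd)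

/-- The graph of consecutive points on the curves of the two pencils. -/
def Pencils.graph {T : ℕ} (pc : Pencils T) : SimpleGraph (Fin T × Fin T) where
  Adj x y := (x.2 = y.2 ∧ Consec (pc.tc x.2) (pc.C0 x.2) x.1 y.1) ∨
    (x.1 = y.1 ∧ Consec (pc.ta x.1) (pc.A0 x.1) x.2 y.2)
  symm := ⟨by
    rintro ⟨i, q⟩ ⟨i', q'⟩ (⟨h1, h2⟩ | ⟨h1, h2⟩)
    · simp only at h1 h2
      subst h1
      exact Or.inl ⟨rfl, h2.symm⟩
    · simp only at h1 h2
      subst h1
      exact Or.inr ⟨rfl, h2.symm⟩⟩
  loopless := ⟨by
    rintro ⟨i, q⟩ (⟨h1, h2⟩ | ⟨h1, h2⟩)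
    · exact h2.1 rfl
    · exact h2.1 rfl⟩

section facts

variable {T : ℕ} (pc : Pencils T)

theorem Pencils.P_mem_c (i q : Fin T) : pc.P i q ∈ range (pc.c q) := ⟨_, pc.c_tc q i⟩

theorem Pencils.P_mem_a (i q : Fin T) : pc.P i q ∈ range (pc.a i) := ⟨_, pc.a_ta i q⟩

theorem Pencils.eq_C {q q' : Fin T} (hq : q ≠ q') {z : ℂ} (h : z ∈ range (pc.c q))
    (h' : z ∈ range (pc.c q')) : z = pc.C :=
  pc.inter_cc q q' hq ⟨h, h'⟩ ⟨⟨_, pc.c_C0 q⟩, ⟨_, pc.c_C0 q'⟩⟩

/-- Points of a `c`-edge are on no other `c`-curve. -/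
theorem Pencils.edge_c {q q' i i' : Fin T} (hcon : Consec (pc.tc q) (pc.C0 q) i i')
    {z : ℂ} (hz : z ∈ pc.c q '' uIcc (pc.tc q i) (pc.tc q i')) (hz' : z ∈ range (pc.c q')) :
    q' = q := by
  by_contra hne
  obtain ⟨s, hs, rfl⟩ := hz
  have h1 := pc.eq_C (Ne.symm hne) ⟨s, rfl⟩ hz'
  rw [← pc.c_C0 q] at h1
  have h2 := pc.inj_c q h1
  exact hcon.2.2 (h2 ▸ hs)

/-- The only crossing points on a `c`-edge are its ends. -/
theorem Pencils.edge_c_point {q q' i i' k : Fin T} (hcon : Consec (pc.tc q) (pc.C0 q) i i')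
    (hz : pc.P k q' ∈ pc.c q '' uIcc (pc.tc q i) (pc.tc q i')) :
    q' = q ∧ (k = i ∨ k = i') := by
  have h1 : q' = q := pc.edge_c hcon hz (pc.P_mem_c k q')
  refine ⟨h1, ?_⟩
  subst h1
  obtain ⟨s, hs, hs'⟩ := hz
  rw [← pc.c_tc q' k] at hs'
  have h2 := pc.inj_c q' hs'
  exact hcon.2.1 k (h2 ▸ hs)

/-- A `c`-edge meets an `a`-curve only in its ends. -/
theorem Pencils.edge_c_a {q i i' k : Fin T} (hcon : Consec (pc.tc q) (pc.C0 q) i i')
    {z : ℂ} (hz : z ∈ pc.c q '' uIcc (pc.tc q i) (pc.tc q i')) (hz' : z ∈ range (pc.a k)) :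
    k = i ∨ k = i' := by
  have h0 : z ∈ range (pc.c q) := by
    obtain ⟨s, _, rfl⟩ := hz
    exact ⟨s, rfl⟩
  have h1 : z = pc.P k q := pc.inter_ca q k ⟨h0, hz'⟩ ⟨pc.P_mem_c k q, pc.P_mem_a k q⟩
  rw [h1] at hz
  exact (pc.edge_c_point hcon hz).2

theorem uIcc_overlap {s a b c d : unitInterval} (h1 : s ∈ uIcc a b) (h2 : s ∈ uIcc c d) :
    c ∈ uIcc a b ∨ d ∈ uIcc a b ∨ a ∈ uIcc c d ∨ b ∈ uIcc c d := by
  obtain ⟨h1a, h1b⟩ := h1
  obtain ⟨h2a, h2b⟩ := h2
  rcases le_total (a ⊓ b) (c ⊓ d) with h | h
  · have hm : c ⊓ d ∈ uIcc a b := ⟨h, h2a.trans h1b⟩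
    rcases min_choice c d with e | e
    · left; rw [← e]; exact hm
    · right; left; rw [← e]; exact hm
  · have hm : a ⊓ b ∈ uIcc c d := ⟨h, h1a.trans h2b⟩
    rcases min_choice a b with e | e
    · right; right; left; rw [← e]; exact hm
    · right; right; right; rw [← e]; exact hm

/-- Two `c`-edges which meet have a common end. -/
theorem Pencils.edge_c_c {q q' i i' k k' : Fin T} (hcon : Consec (pc.tc q) (pc.C0 q) i i')
    (hcon' : Consec (pc.tc q') (pc.C0 q') k k')
    {z : ℂ} (hz : z ∈ pc.c q '' uIcc (pc.tc q i) (pc.tc q i'))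
    (hz' : z ∈ pc.c q' '' uIcc (pc.tc q' k) (pc.tc q' k')) :
    q' = q ∧ (k = i ∨ k = i' ∨ k' = i ∨ k' = i') := by
  have h0 : z ∈ range (pc.c q') := by
    obtain ⟨s, _, rfl⟩ := hz'
    exact ⟨s, rfl⟩
  have h1 : q' = q := pc.edge_c hcon hz h0
  refine ⟨h1, ?_⟩
  subst h1
  obtain ⟨s, hs, rfl⟩ := hz
  obtain ⟨s', hs', h2⟩ := hz'
  have h3 := pc.inj_c q' h2
  subst h3
  rcases uIcc_overlap hs hs' with h | h | h | h
  · rcases hcon.2.1 k h with h | h
    · exact Or.inl h
    · exact Or.inr (Or.inl h)
  · rcases hcon.2.1 k' h with h | h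
    · exact Or.inr (Or.inr (Or.inl h))
    · exact Or.inr (Or.inr (Or.inr h))
  · rcases hcon'.2.1 i h with h | h
    · exact Or.inl h.symm
    · exact Or.inr (Or.inr (Or.inl h.symm))
  · rcases hcon'.2.1 i' h with h | h
    · exact Or.inr (Or.inl h.symm)
    · exact Or.inr (Or.inr (Or.inr h.symm))

end facts

theorem joinedIn_arc (c : unitInterval → ℂ) (hc : Continuous c) (s t : unitInterval) :
    JoinedIn (c '' uIcc s t) (c s) (c t) := by
  have h : JoinedIn (uIcc (s : ℝ) t) (s : ℝ) (t : ℝ) := by
    have hp : IsPathConnected (uIcc (s : ℝ) (t : ℝ)) :=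
      (convex_uIcc _ _).isPathConnected ⟨(s : ℝ), left_mem_uIcc⟩
    exact hp.joinedIn _ left_mem_uIcc _ right_mem_uIcc
  have h2 : Continuous (fun x : ℝ => c (projIcc 0 1 zero_le_one x)) :=
    hc.comp continuous_projIcc
  have h3 := h.map_continuousOn (f := fun x : ℝ => c (projIcc 0 1 zero_le_one x)) h2.continuousOn
  simp only [projIcc_val] at h3
  refine h3.mono ?_
  rintro _ ⟨x, hx, rfl⟩
  refine ⟨projIcc 0 1 zero_le_one x, ?_, rfl⟩
  rw [mem_uIcc] at hx ⊢
  have hs : projIcc (0:ℝ) 1 zero_le_one s = s := projIcc_val _ _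
  have ht : projIcc (0:ℝ) 1 zero_le_one t = t := projIcc_val _ _
  have hm := monotone_projIcc (zero_le_one : (0:ℝ) ≤ 1)
  rcases hx with ⟨h1, h2⟩ | ⟨h1, h2⟩
  · left
    constructor
    · rw [← hs]; exact hm h1
    · rw [← ht]; exact hm h2
  · right
    constructor
    · rw [← ht]; exact hm h1
    · rw [← hs]; exact hm h2

end Pool.Agent.Lib.MP_3c53dc_co
end

section

/-!
# The graph of two pencils is drawable
-/

namespace Pool.Agent.Lib.MP_3c53dc_co

open Set

variable {T : ℕ} (pc : Pencils T)

open Classical in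
/-- The set in which an edge is drawn. -/
noncomputable def Pencils.S (x y : Fin T × Fin T) : Set ℂ :=
  if x.2 = y.2 then pc.c x.2 '' uIcc (pc.tc x.2 x.1) (pc.tc x.2 y.1)
  else pc.a x.1 '' uIcc (pc.ta x.1 x.2) (pc.ta x.1 y.2)

theorem Pencils.drawable : Drawable pc.graph := by
  classical
  refine ⟨fun x => pc.P x.1 x.2, pc.S, ?_, ?_, ?_⟩
  · rintro ⟨i, q⟩ ⟨i', q'⟩ (⟨h1, h2⟩ | ⟨h1, h2⟩)
    · simp only at h1 h2
      subst h1
      simp only [Pencils.S, if_true]
      have := joinedIn_arc (pc.c q) (pc.cont_c q) (pc.tc q i) (pc.tc q i')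
      rwa [pc.c_tc, pc.c_tc] at this
    · simp only at h1 h2
      subst h1
      simp only [Pencils.S, if_neg h2.1]
      have := joinedIn_arc (pc.a i) (pc.cont_a i) (pc.ta i q) (pc.ta i q')
      rwa [pc.a_ta, pc.a_ta] at this
  · rintro ⟨i, q⟩ ⟨i', q'⟩ ⟨k, r⟩ (⟨h1, h2⟩ | ⟨h1, h2⟩) hw1 hw2 hmem
    · simp only at h1 h2
      subst h1
      simp only [Pencils.S, if_true] at hmem
      obtain ⟨rfl, h3 | h3⟩ := pc.edge_c_point h2 hmem
      · exact hw1 (by rw [h3])
      · exact hw2 (by rw [h3])
    · simp only at h1 h2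
      subst h1
      simp only [Pencils.S, if_neg h2.1] at hmem
      obtain ⟨rfl, h3 | h3⟩ := pc.swap.edge_c_point h2 hmem
      · exact hw1 (by rw [h3])
      · exact hw2 (by rw [h3])
  · rintro ⟨i, q⟩ ⟨i', q'⟩ ⟨k, r⟩ ⟨k', r'⟩ (⟨h1, h2⟩ | ⟨h1, h2⟩) (⟨h3, h4⟩ | ⟨h3, h4⟩) n1 n2 n3 n4
    · simp only at h1 h2 h3 h4
      subst h1 h3
      simp only [Pencils.S, if_true]
      rw [Set.disjoint_left]
      intro z hz hz'
      obtain ⟨rfl, h | h | h | h⟩ := pc.edge_c_c h2 h4 hz hz'
      · exact n1 (by rw [h])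
      · exact n3 (by rw [h])
      · exact n2 (by rw [h])
      · exact n4 (by rw [h])
    · simp only at h1 h2 h3 h4
      subst h1 h3
      simp only [Pencils.S, if_true, if_neg h4.1]
      rw [Set.disjoint_left]
      intro z hz hz'
      have hzc : z ∈ range (pc.c q) := by
        obtain ⟨s, _, rfl⟩ := hz
        exact ⟨s, rfl⟩
      have hza : z ∈ range (pc.a k) := by
        obtain ⟨s, _, rfl⟩ := hz'
        exact ⟨s, rfl⟩
      rcases pc.edge_c_a h2 hz hza with rfl | rfl <;>
        rcases pc.swap.edge_c_a h4 hz' hzc with rfl | rfl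
      · exact n1 rfl
      · exact n2 rfl
      · exact n3 rfl
      · exact n4 rfl
    · simp only at h1 h2 h3 h4
      subst h1 h3
      simp only [Pencils.S, if_true, if_neg h2.1]
      rw [Set.disjoint_left]
      intro z hz hz'
      have hza : z ∈ range (pc.a i) := by
        obtain ⟨s, _, rfl⟩ := hz
        exact ⟨s, rfl⟩
      have hzc : z ∈ range (pc.c r) := by
        obtain ⟨s, _, rfl⟩ := hz'
        exact ⟨s, rfl⟩
      rcases pc.edge_c_a h4 hz' hza with rfl | rfl <;>
        rcases pc.swap.edge_c_a h2 hz hzc with rfl | rfl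
      · exact n1 rfl
      · exact n3 rfl
      · exact n2 rfl
      · exact n4 rfl
    · simp only at h1 h2 h3 h4
      subst h1 h3
      simp only [Pencils.S, if_neg h2.1, if_neg h4.1]
      rw [Set.disjoint_left]
      intro z hz hz'
      obtain ⟨rfl, h | h | h | h⟩ := pc.swap.edge_c_c h2 h4 hz hz'
      · exact n1 (by rw [h])
      · exact n3 (by rw [h])
      · exact n2 (by rw [h])
      · exact n4 (by rw [h])

theorem Pencils.tc_injective (q : Fin T) : Function.Injective (pc.tc q) := by
  intro i i' h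
  have h1 : pc.P i q = pc.P i' q := by rw [← pc.c_tc, ← pc.c_tc, h]
  by_contra hne
  -- `P i q` lies on both `a i` and `a i'`, so it is `A`
  have h2 : pc.P i q = pc.A :=
    pc.swap.eq_C hne (pc.P_mem_a i q) (h1 ▸ pc.P_mem_a i' q)
  exact pc.P_ne_A i q h2

theorem Pencils.tc_ne (q i : Fin T) : pc.tc q i ≠ pc.C0 q := by
  intro h
  apply pc.P_ne_C i q
  rw [← pc.c_tc, ← pc.c_C0 q, h]

/-- The family of orders of the crossing points along the `c`-curves. -/
def IsPencil (T : ℕ) (ρ : Fin T → Equiv.Perm (Fin T)) : Prop :=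
  ∃ pc : Pencils T, ∀ q i i', ρ q i < ρ q i' ↔ pc.tc q i < pc.tc q i'

section code

variable (ρ : Fin T → Equiv.Perm (Fin T))

/-- The side of the centre `C` on which a crossing point lies on its `c`-curve. -/
noncomputable def Pencils.side (x : Fin T × Fin T) : Bool := by
  classical exact decide (pc.tc x.2 x.1 < pc.C0 x.2)

/-- The code of a crossing point: curve, side, position. -/
noncomputable def Pencils.code (x : Fin T × Fin T) : (Fin T × Bool) × Fin T :=
  ((x.2, pc.side x), ρ x.2 x.1)

/-- Forget the bound on the position. -/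
def emb (x : (Fin T × Bool) × Fin T) : (Fin T × Bool) × ℕ := (x.1, (x.2 : ℕ))

theorem emb_injective : Function.Injective (emb (T := T)) := by
  rintro ⟨a, b⟩ ⟨c, d⟩ h
  simp only [emb, Prod.mk.injEq] at h
  rw [h.1, Fin.ext h.2]

theorem Pencils.code_injective : Function.Injective (pc.code ρ) := by
  rintro ⟨i, q⟩ ⟨i', q'⟩ h
  simp only [Pencils.code, Prod.mk.injEq] at h
  obtain ⟨⟨h1, -⟩, h2⟩ := h
  subst h1
  rw [(ρ q).injective h2]

open Classical in
/-- The relation read off from the drawing. -/
noncomputable def Pencils.R : Finset (((Fin T × Bool) × ℕ) × ((Fin T × Bool) × ℕ)) :=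
  (adjPairs pc.graph).image (fun p => (emb (pc.code ρ p.1), emb (pc.code ρ p.2)))

theorem Pencils.mem_R (v w : (Fin T × Bool) × ℕ) :
    (v, w) ∈ pc.R ρ ↔ ∃ x y, pc.graph.Adj x y ∧ emb (pc.code ρ x) = v ∧ emb (pc.code ρ y) = w := by
  classical
  simp only [Pencils.R, Finset.mem_image, Prod.mk.injEq, Prod.exists, mem_adjPairs]

end code

end Pool.Agent.Lib.MP_3c53dc_co
end

section

/-!
# Sparsity of all coarsenings of the relation of two pencils
-/

namespace Pool.Agent.Lib.MP_3c53dc_co

open Set

variable {T : ℕ} (pc : Pencils T) (ρ : Fin T → Equiv.Perm (Fin T))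

theorem Pencils.side_iff (x : Fin T × Fin T) :
    pc.side x = true ↔ pc.tc x.2 x.1 < pc.C0 x.2 := by
  classical
  simp [Pencils.side]

theorem Pencils.adm (hρ : ∀ q i i', ρ q i < ρ q i' ↔ pc.tc q i < pc.tc q i') (M : ℕ)
    (hT : T = 2 ^ M) : Adm (30 * T) M (pc.R ρ) := by
  classical
  have hle : ∀ q i i', ρ q i ≤ ρ q i' ↔ pc.tc q i ≤ pc.tc q i' := by
    intro q i i'
    rw [← not_lt, ← not_lt, hρ]
  refine ⟨?_, ?_⟩
  · rintro ⟨v, w⟩ hx
    rw [pc.mem_R] at hx
    obtain ⟨x, y, -, rfl, rfl⟩ := hx
    constructor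
    · have := (pc.code ρ x).2.isLt
      simp only [emb]; omega
    · have := (pc.code ρ y).2.isLt
      simp only [emb]; omega
  · intro j hj
    let f : Fin T × Fin T → (Fin T × Bool) × ℕ := fun x => coarse j (emb (pc.code ρ x))
    have hf : ∀ x, f x = ((x.2, pc.side x), (ρ x.2 x.1 : ℕ) / 2 ^ j) := fun x => rfl
    let W : Type := ↥(Set.range f)
    have : Fintype W := Fintype.ofFinite _
    let H : SimpleGraph W :=
      { Adj := fun w w' => w ≠ w' ∧ ∃ x y, f x = w.1 ∧ f y = w'.1 ∧ pc.graph.Adj x y
        symm := ⟨by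
          rintro w w' ⟨h1, x, y, hx, hy, h⟩
          exact ⟨h1.symm, y, x, hy, hx, h.symm⟩⟩
        loopless := ⟨fun w h => h.1 rfl⟩ }
    have hH : Drawable H := by
      refine pc.drawable.minor ⟨fun w => {x | f x = w.1}, fun w => ?_, ?_, ?_, ?_⟩
      · obtain ⟨x, hx⟩ := w.2
        exact ⟨x, hx⟩
      · rintro w ⟨i, q⟩ hx ⟨i', q'⟩ hy
        simp only [Set.mem_ofPred_eq] at hx hy
        have hxy : f (i, q) = f (i', q') := hx.trans hy.symm
        rw [hf, hf, Prod.mk.injEq, Prod.mk.injEq] at hxy
        obtain ⟨⟨hq, hs⟩, hp⟩ := hxy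
        simp only at hq
        subst hq
        have hK := conn_lin (pc.tc q) (pc.C0 q) (ρ q) (hρ q) (pc.tc_ne q)
          {k | f (k, q) = w.1} (by
            intro a ha b hb k h1 h2
            simp only [Set.mem_ofPred_eq] at ha hb ⊢
            have hab : f (a, q) = f (b, q) := ha.trans hb.symm
            rw [← ha]
            rw [hf, hf, Prod.mk.injEq, Prod.mk.injEq] at hab
            rw [hf, hf, Prod.mk.injEq, Prod.mk.injEq]
            obtain ⟨⟨-, hs'⟩, hp'⟩ := hab
            simp only at hs' hp' ⊢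
            refine ⟨⟨trivial, ?_⟩, ?_⟩
            · have hak := (hle q a k).mp h1
              have hkb := (hle q k b).mp h2
              rw [Bool.eq_iff_iff, pc.side_iff, pc.side_iff] at hs' ⊢
              simp only at hs' ⊢
              constructor
              · intro h; exact lt_of_le_of_lt hak h
              · intro h; exact lt_of_le_of_lt hkb (hs'.mp h)
            · have e1 : (ρ q a : ℕ) / 2 ^ j ≤ (ρ q k : ℕ) / 2 ^ j :=
                Nat.div_le_div_right (Fin.le_def.mp h1)
              have e2 : (ρ q k : ℕ) / 2 ^ j ≤ (ρ q b : ℕ) / 2 ^ j :=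
                Nat.div_le_div_right (Fin.le_def.mp h2)
              omega) (by
            intro a ha b hb h
            simp only [Set.mem_ofPred_eq] at ha hb
            have hab : f (a, q) = f (b, q) := ha.trans hb.symm
            rw [hf, hf, Prod.mk.injEq, Prod.mk.injEq] at hab
            obtain ⟨⟨-, hs'⟩, -⟩ := hab
            rw [Bool.eq_iff_iff, pc.side_iff, pc.side_iff] at hs'
            exact hs'.mp h) i hx i' hy
        clear hx hy hs hp
        induction hK with
        | refl => exact Relation.ReflTransGen.refl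
        | tail _ hab ih =>
          exact ih.tail ⟨hab.1, hab.2.1, Or.inl ⟨rfl, hab.2.2⟩⟩
      · intro w w' hww
        rw [Set.disjoint_left]
        intro x hx hx'
        exact hww (Subtype.ext ((Eq.symm hx).trans hx'))
      · rintro w w' ⟨h1, x, y, hx, hy, h⟩
        exact ⟨x, hx, y, hy, h⟩
    have hb := drawable_edge_bound W H hH
    have hWc : Fintype.card W ≤ 2 * T * 2 ^ (M - j) := by
      have hlt : ∀ w : W, w.1.2 < 2 ^ (M - j) := by
        intro w
        obtain ⟨x, hx⟩ := w.2
        rw [← hx, hf]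
        refine Nat.div_lt_of_lt_mul ?_
        rw [← pow_add, Nat.add_sub_cancel' hj, ← hT]
        exact (ρ x.2 x.1).isLt
      have := Fintype.card_le_of_injective
        (fun w : W => ((w.1.1, ⟨w.1.2, hlt w⟩) : (Fin T × Bool) × Fin (2 ^ (M - j)))) (by
          intro w w' h
          simp only [Prod.mk.injEq, Fin.mk.injEq] at h
          exact Subtype.ext (Prod.ext h.1 h.2))
      refine this.trans (le_of_eq ?_)
      simp only [Fintype.card_prod, Fintype.card_fin, Fintype.card_bool]
      ring
    have hsub : (pc.R ρ).image (coarse2 j) ⊆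
        (adjPairs H).image (fun p => (p.1.1, p.2.1)) ∪
          (Finset.univ : Finset W).image (fun w => (w.1, w.1)) := by
      intro z hz
      obtain ⟨⟨v, w⟩, hvw, rfl⟩ := Finset.mem_image.mp hz
      rw [pc.mem_R] at hvw
      obtain ⟨x, y, hxy, rfl, rfl⟩ := hvw
      change (f x, f y) ∈ _
      by_cases he : f x = f y
      · refine Finset.mem_union_right _ (Finset.mem_image.mpr ⟨⟨f x, ⟨x, rfl⟩⟩, Finset.mem_univ _, ?_⟩)
        simp only [← he]
      · refine Finset.mem_union_left _ (Finset.mem_image.mpr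
          ⟨(⟨f x, ⟨x, rfl⟩⟩, ⟨f y, ⟨y, rfl⟩⟩), ?_, rfl⟩)
        rw [mem_adjPairs]
        exact ⟨fun h => he (congrArg Subtype.val h), x, y, rfl, rfl, hxy⟩
    calc ((pc.R ρ).image (coarse2 j)).card ≤ _ := Finset.card_le_card hsub
      _ ≤ _ := Finset.card_union_le _ _
      _ ≤ (adjPairs H).card + Fintype.card W :=
        Nat.add_le_add Finset.card_image_le Finset.card_image_le
      _ ≤ 14 * Fintype.card W + Fintype.card W := Nat.add_le_add_right hb _
      _ = 15 * Fintype.card W := by ring
      _ ≤ 15 * (2 * T * 2 ^ (M - j)) := Nat.mul_le_mul_left _ hWc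
      _ = 30 * T * 2 ^ (M - j) := by ring

end Pool.Agent.Lib.MP_3c53dc_co
end

section

/-!
# Few families of orders come from pencils
-/

namespace Pool.Agent.Lib.MP_3c53dc_co

open Set

variable {T : ℕ} (pc : Pencils T) (ρ : Fin T → Equiv.Perm (Fin T))

/-- Steps of the relation which change the `c`-curve. -/
def relA (R : Finset (((Fin T × Bool) × ℕ) × ((Fin T × Bool) × ℕ)))
    (v w : (Fin T × Bool) × ℕ) : Prop := (v, w) ∈ R ∧ v.1.1 ≠ w.1.1

/-- The decoding predicate. -/
def Dec (R : Finset (((Fin T × Bool) × ℕ) × ((Fin T × Bool) × ℕ)))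
    (start : Fin T → Bool → Option ((Fin T × Bool) × Fin T)) (i q k : Fin T) : Prop :=
  ∃ s s' v, start i s' = some v ∧ Relation.ReflTransGen (relA R) (emb v) ((q, s), (k : ℕ))

open Classical in
/-- A starting point on each side of each `a`-curve. -/
noncomputable def Pencils.start (i : Fin T) (s : Bool) : Option ((Fin T × Bool) × Fin T) :=
  if h : ∃ q, pc.swap.side (q, i) = s then some (pc.code ρ (i, h.choose)) else none

theorem Pencils.dec_iff (i q k : Fin T) :
    Dec (pc.R ρ) (pc.start ρ) i q k ↔ ρ q i = k := by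
  classical
  constructor
  · rintro ⟨s, s', v, hv, hr⟩
    -- every reachable vertex is the code of a point of `a i`
    have key : ∀ w, Relation.ReflTransGen (relA (pc.R ρ)) (emb v) w →
        ∃ q', w = emb (pc.code ρ (i, q')) := by
      intro w hw
      induction hw with
      | refl =>
        rw [Pencils.start] at hv
        split_ifs at hv with h
        obtain rfl := Option.some.inj hv
        exact ⟨_, rfl⟩
      | @tail b c _ hbc ih =>
        obtain ⟨q', rfl⟩ := ih
        obtain ⟨h1, h2⟩ := hbc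
        rw [pc.mem_R] at h1
        obtain ⟨x, y, hxy, hx, rfl⟩ := h1
        have hx' : x = (i, q') := pc.code_injective ρ (emb_injective hx)
        subst hx'
        obtain ⟨i', q''⟩ := y
        rcases hxy with ⟨h3, _⟩ | ⟨h3, _⟩
        · exact absurd h3 h2
        · simp only at h3
          subst h3
          exact ⟨q'', rfl⟩
    obtain ⟨q', hq'⟩ := key _ hr
    simp only [emb, Pencils.code, Prod.mk.injEq] at hq'
    obtain ⟨⟨rfl, -⟩, h2⟩ := hq'
    exact (Fin.ext h2).symm
  · intro hk
    obtain ⟨ρa, hρa⟩ := exists_rank (pc.ta i) (pc.swap.tc_injective i)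
    let s' := pc.swap.side (q, i)
    have hex : ∃ q', pc.swap.side (q', i) = s' := ⟨q, rfl⟩
    refine ⟨pc.side (i, q), s', pc.code ρ (i, hex.choose), ?_, ?_⟩
    · rw [Pencils.start, dif_pos hex]
    · have hle : ∀ q q', ρa q ≤ ρa q' ↔ pc.ta i q ≤ pc.ta i q' := by
        intro q q'
        rw [← not_lt, ← not_lt, hρa]
      have hK := conn_lin (pc.ta i) (pc.A0 i) ρa hρa (pc.swap.tc_ne i)
        {q' | pc.swap.side (q', i) = s'} (by
          intro a ha b hb k h1 h2
          simp only [Set.mem_ofPred_eq] at ha hb ⊢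
          have hab := ha.trans hb.symm
          rw [← ha]
          rw [Bool.eq_iff_iff, Pencils.side_iff, Pencils.side_iff] at hab ⊢
          have hak := (hle a k).mp h1
          have hkb := (hle k b).mp h2
          constructor
          · intro h; exact lt_of_le_of_lt hak h
          · intro h; exact lt_of_le_of_lt hkb (hab.mp h)) (by
          intro a ha b hb h
          simp only [Set.mem_ofPred_eq] at ha hb
          have hab := ha.trans hb.symm
          rw [Bool.eq_iff_iff, Pencils.side_iff, Pencils.side_iff] at hab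
          exact hab.mp h) hex.choose hex.choose_spec q rfl
      have hgoal : ((q, pc.side (i, q)), (k : ℕ)) = emb (pc.code ρ (i, q)) := by
        rw [← hk]; rfl
      rw [hgoal]
      have lift : ∀ q₀ q', Relation.ReflTransGen (fun x y => x ∈ {q' | pc.swap.side (q', i) = s'} ∧
          y ∈ {q' | pc.swap.side (q', i) = s'} ∧ Consec (pc.ta i) (pc.A0 i) x y) q₀ q' →
          Relation.ReflTransGen (relA (pc.R ρ)) (emb (pc.code ρ (i, q₀)))
            (emb (pc.code ρ (i, q'))) := by
        intro q₀ q' h
        induction h with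
        | refl => exact Relation.ReflTransGen.refl
        | @tail b c _ hbc ih =>
          refine ih.tail ⟨?_, ?_⟩
          · rw [pc.mem_R]
            exact ⟨(i, b), (i, c), Or.inr ⟨rfl, hbc.2.2⟩, rfl, rfl⟩
          · exact hbc.2.2.1
      exact lift _ _ hK

theorem aux_pow (T : ℕ) : T * 2 * T + 1 ≤ 2 ^ (2 * T) := by
  rw [pow_mul]
  norm_num
  induction T with
  | zero => norm_num
  | succ T ih =>
    rw [pow_succ]
    nlinarith [sq_nonneg ((T : ℤ) - 1), Nat.zero_le T, Nat.zero_le (T * T)]

/-- Few families of orders come from pencils. -/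
theorem card_isPencil (M : ℕ) (hT : T = 2 ^ M) (F : Finset (Fin T → Equiv.Perm (Fin T)))
    (hF : ∀ ρ ∈ F, IsPencil T ρ) : F.card ≤ 2 ^ (128 * T ^ 2) := by
  classical
  obtain ⟨U, hU, hcov⟩ := exists_cover (β := Fin T × Bool) (30 * T) M
  have hex : ∀ ρ ∈ F, ∃ code : Finset (((Fin T × Bool) × ℕ) × ((Fin T × Bool) × ℕ)) ×
      (Fin T → Bool → Option ((Fin T × Bool) × Fin T)),
      code.1 ∈ U ∧ ∀ i q k, Dec code.1 code.2 i q k ↔ ρ q i = k := by
    intro ρ hρ
    obtain ⟨pc, hpc⟩ := hF ρ hρ
    exact ⟨(pc.R ρ, pc.start ρ), hcov _ (pc.adm ρ hpc M hT), fun i q k => pc.dec_iff ρ i q k⟩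
  choose! g hg using hex
  have h1 : F.card ≤ (U ×ˢ (Finset.univ :
      Finset (Fin T → Bool → Option ((Fin T × Bool) × Fin T)))).card := by
    refine Finset.card_le_card_of_injOn g ?_ ?_
    · intro ρ hρ
      exact Finset.mem_coe.mpr (Finset.mem_product.mpr ⟨(hg ρ hρ).1, Finset.mem_univ _⟩)
    · intro ρ hρ ρ' hρ' h
      funext q
      ext i
      have e1 := ((hg ρ hρ).2 i q (ρ q i)).mpr rfl
      rw [h] at e1
      have e2 := ((hg ρ' hρ').2 i q (ρ q i)).mp e1
      rw [e2]
  refine h1.trans ?_
  rw [Finset.card_product, Finset.card_univ]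
  simp only [Fintype.card_pi, Finset.prod_const, Finset.card_univ, Fintype.card_fin,
    Fintype.card_bool, Fintype.card_option, Fintype.card_prod]
  simp only [Fintype.card_prod, Fintype.card_fin, Fintype.card_bool, ← hT] at hU
  calc U.card * ((T * 2 * T + 1) ^ 2) ^ T
      ≤ 2 ^ ((T * 2) ^ 2 + 4 * (30 * T) * T) * ((2 ^ (2 * T)) ^ 2) ^ T :=
        Nat.mul_le_mul hU (Nat.pow_le_pow_left (Nat.pow_le_pow_left (aux_pow T) 2) T)
    _ = 2 ^ (128 * T ^ 2) := by
        rw [← pow_mul, ← pow_mul, ← pow_add]
        congr 1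
        ring

end Pool.Agent.Lib.MP_3c53dc_co
end

section

/-!
# Realizations of the transposed matrices
-/

namespace Pool.Agent.Lib.MP_3c53dc_co

open Set

theorem RealizableIn.map {X Y : Type*} [TopologicalSpace X] [TopologicalSpace Y] {I J : Type*}
    {A : I → J → Prop} (h : RealizableIn X A) (f : X → Y) (hf : Continuous f)
    (hi : Function.Injective f) : RealizableIn Y A := by
  obtain ⟨p, c, h1, h2, h3, h4⟩ := h
  have hr : ∀ i, range (fun t => f (c i t)) = f '' range (c i) := by
    intro i
    rw [← range_comp]; rfl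
  refine ⟨fun j => f (p j), fun i t => f (c i t), hi.comp h1,
    fun i => ⟨hf.comp (h2 i).1, hi.comp (h2 i).2⟩, ?_, ?_⟩
  · intro i j
    rw [← h3, hr, hi.mem_set_image]
  · intro i i' hii
    rw [hr, hr, ← Set.image_inter hi]
    exact (h4 i i' hii).image f

theorem dual_orders {T : ℕ} (σ : Fin T → Fin T → Equiv.Perm (Fin T))
    (h : RealizableIn ℂ (fun (v : Col T) (u : Row T) => Inc σ u v)) :
    ∃ r : Fin T → Fin T → Equiv.Perm (Fin T),
      (∀ p, IsPencil T (fun q => r p q)) ∧
      (∀ q, IsPencil T (fun p => (σ p q).symm.trans (r p q))) := by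
  obtain ⟨pt, cv, hpt, hcv, hinc, hint⟩ := h
  -- parameters on the curves `c`
  have ht : ∀ p q i, ∃ t, cv (1, p, q) t = pt (Sum.inl (p, q, i)) := by
    intro p q i
    exact (hinc (1, p, q) (Sum.inl (p, q, i))).mpr (Or.inr (Or.inl ⟨rfl, rfl, rfl⟩))
  choose t ht using ht
  have hta : ∀ p q i, ∃ t, cv (0, p, i) t = pt (Sum.inl (p, q, i)) := by
    intro p q i
    exact (hinc (0, p, i) (Sum.inl (p, q, i))).mpr (Or.inl ⟨rfl, rfl, rfl⟩)
  choose ta hta using hta
  have htb : ∀ q p j, ∃ t, cv (2, q, j) t = pt (Sum.inl (p, q, (σ p q).symm j)) := by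
    intro q p j
    exact (hinc (2, q, j) (Sum.inl (p, q, (σ p q).symm j))).mpr
      (Or.inr (Or.inr ⟨rfl, rfl, by simp⟩))
  choose tb htb using htb
  have hhub : ∀ s : Fin 3, ∀ x y : Fin T, ∃ t, cv (s, x, y) t = pt (Sum.inr s) := by
    intro s x y
    exact (hinc (s, x, y) (Sum.inr s)).mpr rfl
  choose th hth using hhub
  have hti : ∀ p q, Function.Injective (t p q) := by
    intro p q i i' e
    have e1 : pt (Sum.inl (p, q, i)) = pt (Sum.inl (p, q, i')) := by
      rw [← ht, ← ht, e]
    have e2 := Sum.inl.inj (hpt e1)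
    simp only [Prod.mk.injEq, true_and] at e2
    exact e2
  have hr : ∀ p q, ∃ ρ : Equiv.Perm (Fin T), ∀ i i', ρ i < ρ i' ↔ t p q i < t p q i' :=
    fun p q => exists_rank _ (hti p q)
  choose r hr using hr
  refine ⟨r, fun p => ?_, fun q => ?_⟩
  · refine ⟨{ P := fun i q => pt (Sum.inl (p, q, i))
              c := fun q => cv (1, p, q)
              a := fun i => cv (0, p, i)
              tc := fun q i => t p q i
              ta := fun i q => ta p q i
              C0 := fun q => th 1 p q
              A0 := fun i => th 0 p i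
              C := pt (Sum.inr 1)
              A := pt (Sum.inr 0)
              cont_c := fun q => (hcv _).1
              cont_a := fun i => (hcv _).1
              inj_c := fun q => (hcv _).2
              inj_a := fun i => (hcv _).2
              c_tc := fun q i => ht p q i
              a_ta := fun i q => hta p q i
              c_C0 := fun q => hth 1 p q
              a_A0 := fun i => hth 0 p i
              inter_cc := fun q q' hqq => hint _ _ (by simpa using hqq)
              inter_aa := fun i i' hii => hint _ _ (by simpa using hii)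
              inter_ca := fun q i => hint _ _ (by simp)
              P_ne_C := fun i q e => by cases hpt e
              P_ne_A := fun i q e => by cases hpt e }, ?_⟩
    intro q i i'
    exact hr p q i i'
  · refine ⟨{ P := fun j p => pt (Sum.inl (p, q, (σ p q).symm j))
              c := fun p => cv (1, p, q)
              a := fun j => cv (2, q, j)
              tc := fun p j => t p q ((σ p q).symm j)
              ta := fun j p => tb q p j
              C0 := fun p => th 1 p q
              A0 := fun j => th 2 q j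
              C := pt (Sum.inr 1)
              A := pt (Sum.inr 2)
              cont_c := fun q => (hcv _).1
              cont_a := fun i => (hcv _).1
              inj_c := fun q => (hcv _).2
              inj_a := fun i => (hcv _).2
              c_tc := fun p j => ht p q _
              a_ta := fun j p => htb q p j
              c_C0 := fun p => hth 1 p q
              a_A0 := fun j => hth 2 q j
              inter_cc := fun q q' hqq => hint _ _ (by simpa using hqq)
              inter_aa := fun i i' hii => hint _ _ (by simpa using hii)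
              inter_ca := fun q i => hint _ _ (by simp)
              P_ne_C := fun i q e => by cases hpt e
              P_ne_A := fun i q e => by cases hpt e }, ?_⟩
    intro p j j'
    exact hr p q _ _

/-- Counting: for `T = 2 ^ (m + 1)` with `m` large some transposed matrix is not realizable. -/
theorem exists_not_dual (m : ℕ) (hm : 512 < m) :
    ∃ σ : Fin (2 ^ (m + 1)) → Fin (2 ^ (m + 1)) → Equiv.Perm (Fin (2 ^ (m + 1))),
      ¬ RealizableIn ℂ (fun (v : Col (2 ^ (m + 1))) (u : Row (2 ^ (m + 1))) => Inc σ u v) := by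
  classical
  by_contra hcon
  push Not at hcon
  obtain ⟨T, hT⟩ : ∃ T, T = 2 ^ (m + 1) := ⟨_, rfl⟩
  rw [← hT] at hcon
  have hTpos : 0 < T := by rw [hT]; positivity
  choose r hr1 hr2 using fun σ => dual_orders σ (hcon σ)
  let F : Finset (Fin T → Equiv.Perm (Fin T)) := Finset.univ.filter (fun ρ => IsPencil T ρ)
  have hF : F.card ≤ 2 ^ (128 * T ^ 2) :=
    card_isPencil (m + 1) hT F (fun ρ hρ => (Finset.mem_filter.mp hρ).2)
  have hcard : Fintype.card (Fin T → Fin T → Equiv.Perm (Fin T)) ≤
      ((Fintype.piFinset (fun _ : Fin T => F)) ×ˢ (Fintype.piFinset (fun _ : Fin T => F))).card := by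
    rw [← Finset.card_univ]
    refine Finset.card_le_card_of_injOn
      (fun σ => (fun p q => r σ p q, fun q p => (σ p q).symm.trans (r σ p q))) ?_ ?_
    · intro σ _
      refine Finset.mem_coe.mpr (Finset.mem_product.mpr ⟨?_, ?_⟩)
      · rw [Fintype.mem_piFinset]
        exact fun p => Finset.mem_filter.mpr ⟨Finset.mem_univ _, hr1 σ p⟩
      · rw [Fintype.mem_piFinset]
        exact fun q => Finset.mem_filter.mpr ⟨Finset.mem_univ _, hr2 σ q⟩
    · intro σ _ σ' _ h
      simp only [Prod.mk.injEq] at h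
      obtain ⟨h1, h2⟩ := h
      funext p q
      have e1 : r σ p q = r σ' p q := congrFun (congrFun h1 p) q
      have e2 : (σ p q).symm.trans (r σ p q) = (σ' p q).symm.trans (r σ' p q) :=
        congrFun (congrFun h2 q) p
      rw [e1] at e2
      have e3 : (σ p q).symm = (σ' p q).symm := by
        ext x
        have := congrArg (fun e : Equiv.Perm (Fin T) => (r σ' p q).symm (e x)) e2
        simp only [Equiv.trans_apply, Equiv.symm_apply_apply] at this
        rw [this]
      have := congrArg Equiv.symm e3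
      simpa using this
  rw [Finset.card_product, Fintype.card_piFinset] at hcard
  simp only [Fintype.card_pi, Finset.prod_const, Finset.card_univ, Fintype.card_fin,
    Fintype.card_perm] at hcard
  have h1 : (T.factorial ^ T) ^ T ≤ (2 ^ (256 * T)) ^ (T * T) := by
    calc (T.factorial ^ T) ^ T ≤ F.card ^ T * F.card ^ T := hcard
      _ ≤ (2 ^ (128 * T ^ 2)) ^ T * (2 ^ (128 * T ^ 2)) ^ T :=
        Nat.mul_le_mul (Nat.pow_le_pow_left hF _) (Nat.pow_le_pow_left hF _)
      _ = (2 ^ (256 * T)) ^ (T * T) := by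
        rw [← pow_mul, ← pow_add, ← pow_mul]
        congr 1
        ring
  rw [← pow_mul] at h1
  have h2 : T.factorial ≤ 2 ^ (256 * T) :=
    (Nat.pow_le_pow_iff_left (Nat.mul_pos hTpos hTpos).ne').mp h1
  have h3 : (2 ^ m) ^ (2 ^ m) ≤ T.factorial := by
    have := Nat.factorial_mul_pow_le_factorial (m := 2 ^ m) (n := 2 ^ m)
    have e : 2 ^ m + 2 ^ m = T := by rw [hT]; ring
    rw [e] at this
    calc (2 ^ m) ^ (2 ^ m) ≤ (2 ^ m + 1) ^ (2 ^ m) := Nat.pow_le_pow_left (by omega) _
      _ ≤ (2 ^ m).factorial * (2 ^ m + 1) ^ (2 ^ m) :=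
        Nat.le_mul_of_pos_left _ (Nat.factorial_pos _)
      _ ≤ T.factorial := this
  have h4 := h3.trans h2
  rw [← pow_mul] at h4
  have h5 : m * 2 ^ m ≤ 256 * T := (Nat.pow_le_pow_iff_right (by norm_num)).mp h4
  rw [hT, pow_succ] at h5
  have h6 : 512 * 2 ^ m < m * 2 ^ m := Nat.mul_lt_mul_of_pos_right hm (by positivity)
  omega

end Pool.Agent.Lib.MP_3c53dc_co
end
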